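import Mathlib

/-!
# Finite cones, contractions and additive triples
-/

open Finset Module

open scoped Classical

namespace Pool.Agent.H456.GW

variable {F : Type} [Field F]
variable {V V' V'' : Type} [AddCommGroup V] [Module F V] [AddCommGroup V'] [Module F V']
  [AddCommGroup V''] [Module F V'']

/-- The kernel of `π` is spanned by members of `E`. -/
def KerOK (π : V →ₗ[F] V') (E : Finset V) : Prop :=
  LinearMap.ker π ≤ Submodule.span F {x | x ∈ E ∧ π x = 0}

theorem KerOK.comp {π : V →ₗ[F] V'} {π' : V' →ₗ[F] V''} {E : Finset V} (h : KerOK π E)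
    (h' : KerOK π' (E.image π)) : KerOK (π' ∘ₗ π) E := by
  intro y hy
  rw [LinearMap.mem_ker, LinearMap.comp_apply] at hy
  have h1 : π y ∈ (Submodule.span F {x | x ∈ E ∧ (π' ∘ₗ π) x = 0}).map π := by
    rw [Submodule.map_span]
    refine Submodule.span_mono ?_ (h' (LinearMap.mem_ker.2 hy))
    rintro x ⟨hx, hx0⟩
    obtain ⟨z, hz, rfl⟩ := mem_image.1 hx
    exact ⟨z, ⟨hz, hx0⟩, rfl⟩
  obtain ⟨z, hz, hzy⟩ := h1
  have h2 : y - z ∈ LinearMap.ker π := by
    rw [LinearMap.mem_ker, map_sub, hzy, sub_self]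
  have h3 : Submodule.span F {x | x ∈ E ∧ π x = 0} ≤
      Submodule.span F {x | x ∈ E ∧ (π' ∘ₗ π) x = 0} := by
    apply Submodule.span_mono
    rintro x ⟨hx, hx0⟩
    exact ⟨hx, by rw [LinearMap.comp_apply, hx0, map_zero]⟩
  have := Submodule.add_mem _ (h3 (h h2)) hz
  rwa [sub_add_cancel] at this

theorem KerOK.mono {π : V →ₗ[F] V'} {E E' : Finset V} (h : KerOK π E) (hE : E ⊆ E') :
    KerOK π E' :=
  h.trans (Submodule.span_mono fun _ hx => ⟨hE hx.1, hx.2⟩)

theorem kerOK_mkQ {E : Finset V} {S : Set V} (hS : S ⊆ E) :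
    KerOK (Submodule.mkQ (Submodule.span F S)) E := by
  unfold KerOK
  rw [Submodule.ker_mkQ]
  apply Submodule.span_mono
  intro x hx
  refine ⟨hS hx, ?_⟩
  rw [Submodule.mkQ_apply, Submodule.Quotient.mk_eq_zero]
  exact Submodule.subset_span hx

/-- The rank of a finite set of vectors. -/
noncomputable def rnk (F : Type) [Field F] {V : Type} [AddCommGroup V] [Module F V]
    (E : Finset V) : ℕ := finrank F (Submodule.span F (E : Set V))

theorem span_image (π : V →ₗ[F] V') (E : Finset V) :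
    Submodule.span F ((E.image π : Finset V') : Set V') =
      (Submodule.span F (E : Set V)).map π := by
  rw [Submodule.map_span, coe_image]

instance (E : Finset V) : FiniteDimensional F (Submodule.span F (E : Set V)) :=
  FiniteDimensional.span_finset F E

theorem rnk_image_le (π : V →ₗ[F] V') (E : Finset V) : rnk F (E.image π) ≤ rnk F E := by
  unfold rnk
  rw [span_image]
  exact Submodule.finrank_map_le _ _

theorem rnk_mono {E E' : Finset V} (h : E ⊆ E') : rnk F E ≤ rnk F E' :=
  Submodule.finrank_mono (Submodule.span_mono (by exact_mod_cast h))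

theorem rnk_contract {E : Finset V} {x : V} (hx : x ∈ E) (hx0 : x ≠ 0) :
    rnk F (E.image (Submodule.mkQ (Submodule.span F {x}))) + 1 = rnk F E := by
  set π := Submodule.mkQ (Submodule.span F {x}) with hπ
  unfold rnk
  rw [span_image]
  have h1 := LinearMap.finrank_range_add_finrank_ker
    (π.domRestrict (Submodule.span F (E : Set V)))
  have h2 : LinearMap.range (π.domRestrict (Submodule.span F (E : Set V))) =
      (Submodule.span F (E : Set V)).map π := by
    rw [LinearMap.domRestrict, LinearMap.range_comp, Submodule.range_subtype]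
  have h3 : finrank F (LinearMap.ker (π.domRestrict (Submodule.span F (E : Set V)))) = 1 := by
    have hxE : x ∈ Submodule.span F (E : Set V) := Submodule.subset_span hx
    have h4 : LinearMap.ker (π.domRestrict (Submodule.span F (E : Set V))) =
        Submodule.span F {(⟨x, hxE⟩ : Submodule.span F (E : Set V))} := by
      ext ⟨y, hy⟩
      rw [LinearMap.mem_ker, LinearMap.domRestrict_apply, hπ, Submodule.mkQ_apply,
        Submodule.Quotient.mk_eq_zero, Submodule.mem_span_singleton,
        Submodule.mem_span_singleton]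
      constructor
      · rintro ⟨a, ha⟩
        exact ⟨a, Subtype.ext ha⟩
      · rintro ⟨a, ha⟩
        exact ⟨a, congrArg Subtype.val ha⟩
    rw [h4]
    apply finrank_span_singleton
    intro h
    exact hx0 (congrArg Subtype.val h)
  rw [h2, h3] at h1
  exact h1

/-! ### Additive triples -/

/-- The number of pairs in `C` whose sum is in `C`. -/
noncomputable def tri (C : Finset V) : ℕ := #((C ×ˢ C).filter fun p => p.1 + p.2 ∈ C)

/-- The points of the projection of `C` that are images of at least two points of `C`. -/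
noncomputable def mul (ρ : V → V') (C : Finset V) : Finset V' :=
  (C.image ρ).filter fun v => 2 ≤ #(C.filter fun y => ρ y = v)

/-- The number of pairs in `M` whose sum is in `C`. -/
noncomputable def adj (M C : Finset V) : ℕ := #((M ×ˢ M).filter fun p => p.1 + p.2 ∈ C)

omit [AddCommGroup V] [AddCommGroup V'] in
theorem card_mul_add (ρ : V → V') (C : Finset V) : #(mul ρ C) + #(C.image ρ) ≤ #C := by
  have h1 : #C = ∑ v ∈ C.image ρ, #(C.filter fun y => ρ y = v) :=
    card_eq_sum_card_fiberwise fun y hy => mem_image_of_mem _ hy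
  rw [h1, mul, card_filter, card_eq_sum_ones (C.image ρ), ← sum_add_distrib]
  apply sum_le_sum
  intro v hv
  obtain ⟨y, hy, rfl⟩ := mem_image.1 hv
  split_ifs with h
  · omega
  · have : 0 < #(C.filter fun y' => ρ y' = ρ y) :=
      card_pos.2 ⟨y, mem_filter.2 ⟨hy, rfl⟩⟩
    omega

theorem tri_le (ρ : V →ₗ[F] V') (C : Finset V) (q : ℕ) (hneg : ∀ y ∈ C, -y ∈ C)
    (hq : ∀ v, #(C.filter fun y => ρ y = v) ≤ q) :
    tri C ≤ tri (C.image ρ) + 3 * q ^ 2 * adj (mul ρ C) (C.image ρ) := by
  set C' := C.image ρ with hC'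
  set M := mul ρ C with hM
  have huniq : ∀ y ∈ C, ∀ y' ∈ C, ρ y = ρ y' → ρ y ∉ M → y = y' := by
    intro y hy y' hy' h1 h2
    by_contra hne
    apply h2
    rw [hM, mul, mem_filter]
    refine ⟨mem_image_of_mem _ hy, ?_⟩
    have : 1 < #(C.filter fun z => ρ z = ρ y) := one_lt_card.2
      ⟨y, mem_filter.2 ⟨hy, rfl⟩, y', mem_filter.2 ⟨hy', h1.symm⟩, hne⟩
    exact this
  have hMC : ∀ v ∈ M, v ∈ C' := fun v hv => (mem_filter.1 hv).1
  have hMneg : ∀ v ∈ M, -v ∈ M := by
    intro v hv
    rw [hM, mul, mem_filter] at hv ⊢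
    obtain ⟨y, hy, hyv⟩ := mem_image.1 hv.1
    refine ⟨mem_image.2 ⟨-y, hneg y hy, by rw [map_neg, hyv]⟩, hv.2.trans ?_⟩
    apply card_le_card_of_injOn (fun z => -z)
    · intro z hz
      rw [mem_coe, mem_filter] at hz ⊢
      exact ⟨hneg z hz.1, by rw [map_neg, hz.2]⟩
    · intro z _ z' _ h
      exact neg_injective h
  set S := (C ×ˢ C).filter fun p => p.1 + p.2 ∈ C with hS
  set S' := (C' ×ˢ C').filter fun p => p.1 + p.2 ∈ C' with hS'
  set bad := S'.filter fun p => (p.1 ∈ M ∧ p.2 ∈ M) ∨ (p.1 ∈ M ∧ p.1 + p.2 ∈ M) ∨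
    (p.2 ∈ M ∧ p.1 + p.2 ∈ M) with hbad
  have hmaps : ∀ p ∈ S, (ρ p.1, ρ p.2) ∈ S' := by
    intro p hp
    rw [hS, mem_filter, mem_product] at hp
    rw [hS', mem_filter, mem_product]
    refine ⟨⟨mem_image_of_mem _ hp.1.1, mem_image_of_mem _ hp.1.2⟩, ?_⟩
    change ρ p.1 + ρ p.2 ∈ C'
    rw [← map_add]
    exact mem_image_of_mem _ hp.2
  have h1 : tri C = ∑ p ∈ S', #(S.filter fun r => (ρ r.1, ρ r.2) = p) :=
    card_eq_sum_card_fiberwise hmaps
  have h2 : ∀ p ∈ S', #(S.filter fun r => (ρ r.1, ρ r.2) = p) ≤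
      1 + (if p ∈ bad then q ^ 2 else 0) := by
    intro p hp
    split_ifs with hb
    · have h3 : (S.filter fun r => (ρ r.1, ρ r.2) = p) ⊆
          (C.filter fun y => ρ y = p.1) ×ˢ (C.filter fun y => ρ y = p.2) := by
        intro r hr
        rw [mem_filter, hS, mem_filter, mem_product] at hr
        rw [mem_product, mem_filter, mem_filter, ← hr.2]
        exact ⟨⟨hr.1.1.1, rfl⟩, ⟨hr.1.1.2, rfl⟩⟩
      have h4 := card_le_card h3
      rw [card_product] at h4
      have h5 := Nat.mul_le_mul (hq p.1) (hq p.2)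
      rw [sq]
      omega
    · rw [add_zero, card_le_one]
      intro r hr r' hr'
      rw [mem_filter, hS, mem_filter, mem_product] at hr hr'
      obtain ⟨⟨⟨hr1, hr2⟩, hr3⟩, rfl⟩ := hr
      obtain ⟨⟨⟨hr1', hr2'⟩, hr3'⟩, h6⟩ := hr'
      have h7 : ρ r'.1 = ρ r.1 := congrArg Prod.fst h6
      have h8 : ρ r'.2 = ρ r.2 := congrArg Prod.snd h6
      have h9 : ρ (r'.1 + r'.2) = ρ (r.1 + r.2) := by rw [map_add, map_add, h7, h8]
      have hnb : ¬ ((ρ r.1 ∈ M ∧ ρ r.2 ∈ M) ∨ (ρ r.1 ∈ M ∧ ρ r.1 + ρ r.2 ∈ M) ∨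
          (ρ r.2 ∈ M ∧ ρ r.1 + ρ r.2 ∈ M)) := fun h => hb (mem_filter.2 ⟨hp, h⟩)
      rw [← map_add] at hnb
      by_cases hm1 : ρ r.1 ∈ M
      · have hm2 : ρ r.2 ∉ M := fun h => hnb (Or.inl ⟨hm1, h⟩)
        have hm3 : ρ (r.1 + r.2) ∉ M := fun h => hnb (Or.inr (Or.inl ⟨hm1, h⟩))
        have e2 := huniq r.2 hr2 r'.2 hr2' h8.symm hm2
        have e3 := huniq _ hr3 _ hr3' h9.symm hm3
        have e1 : r.1 = r'.1 := by
          rw [e2] at e3
          exact add_right_cancel e3
        exact Prod.ext e1 e2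
      · have e1 := huniq r.1 hr1 r'.1 hr1' h7.symm hm1
        by_cases hm2 : ρ r.2 ∈ M
        · have hm3 : ρ (r.1 + r.2) ∉ M := fun h => hnb (Or.inr (Or.inr ⟨hm2, h⟩))
          have e3 := huniq _ hr3 _ hr3' h9.symm hm3
          have e2 : r.2 = r'.2 := by
            rw [e1] at e3
            exact add_left_cancel e3
          exact Prod.ext e1 e2
        · exact Prod.ext e1 (huniq r.2 hr2 r'.2 hr2' h8.symm hm2)
  have h3 : tri C ≤ #S' + q ^ 2 * #(bad) := by
    rw [h1]
    refine (sum_le_sum h2).trans ?_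
    rw [sum_add_distrib, ← card_eq_sum_ones, ← sum_filter, filter_mem_eq_inter,
      inter_eq_right.2 (filter_subset _ _), sum_const, smul_eq_mul, mul_comm]
  have hAdj : ∀ (T : Finset (V' × V')) (f : V' × V' → V' × V'), Set.InjOn f T →
      (∀ p ∈ T, (f p).1 ∈ M ∧ (f p).2 ∈ M ∧ (f p).1 + (f p).2 ∈ C') →
      #T ≤ adj M C' := by
    intro T f hf hT
    apply card_le_card_of_injOn f _ hf
    intro p hp
    obtain ⟨h1, h2, h3⟩ := hT p hp
    rw [mem_coe, mem_filter, mem_product]
    exact ⟨⟨h1, h2⟩, h3⟩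
  have h4 : #(bad) ≤ 3 * adj M C' := by
    have hb1 := hAdj (S'.filter fun p => p.1 ∈ M ∧ p.2 ∈ M) id (Set.injOn_id _) (by
      intro p hp
      rw [mem_filter, hS', mem_filter] at hp
      exact ⟨hp.2.1, hp.2.2, hp.1.2⟩)
    have hb2 := hAdj (S'.filter fun p => p.1 ∈ M ∧ p.1 + p.2 ∈ M) (fun p => (-p.1, p.1 + p.2))
      (by
        intro p _ p' _ h
        simp only [Prod.mk.injEq, neg_inj] at h
        have h1 := h.1
        have h2 := h.2
        rw [h1] at h2
        exact Prod.ext h1 (add_left_cancel h2)) (by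
      intro p hp
      rw [mem_filter, hS', mem_filter, mem_product] at hp
      refine ⟨hMneg _ hp.2.1, hp.2.2, ?_⟩
      change -p.1 + (p.1 + p.2) ∈ C'
      rw [neg_add_cancel_left]
      exact hp.1.1.2)
    have hb3 := hAdj (S'.filter fun p => p.2 ∈ M ∧ p.1 + p.2 ∈ M) (fun p => (-p.2, p.1 + p.2))
      (by
        intro p _ p' _ h
        simp only [Prod.mk.injEq, neg_inj] at h
        have h1 := h.1
        have h2 := h.2
        rw [h1] at h2
        exact Prod.ext (add_right_cancel h2) h1) (by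
      intro p hp
      rw [mem_filter, hS', mem_filter, mem_product] at hp
      refine ⟨hMneg _ hp.2.1, hp.2.2, ?_⟩
      change -p.2 + (p.1 + p.2) ∈ C'
      rw [add_comm p.1, neg_add_cancel_left]
      exact hp.1.1.1)
    have hsub : bad ⊆ (S'.filter fun p => p.1 ∈ M ∧ p.2 ∈ M) ∪
        ((S'.filter fun p => p.1 ∈ M ∧ p.1 + p.2 ∈ M) ∪
        (S'.filter fun p => p.2 ∈ M ∧ p.1 + p.2 ∈ M)) := by
      intro p hp
      rw [hbad, mem_filter] at hp
      simp only [mem_union, mem_filter]
      rcases hp.2 with h | h | h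
      · exact Or.inl ⟨hp.1, h⟩
      · exact Or.inr (Or.inl ⟨hp.1, h⟩)
      · exact Or.inr (Or.inr ⟨hp.1, h⟩)
    have := (card_le_card hsub).trans ((card_union_le _ _).trans
      (Nat.add_le_add_left (card_union_le _ _) _))
    omega
  calc tri C ≤ #S' + q ^ 2 * #(bad) := h3
    _ ≤ #S' + q ^ 2 * (3 * adj M C') := Nat.add_le_add_left (Nat.mul_le_mul_left _ h4) _
    _ = tri C' + 3 * q ^ 2 * adj M C' := by
        rw [tri, ← hS']
        ring

/-- The number of elements of `C` is at most `|F|` times the number of elements of a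
contraction by one vector. -/
theorem card_fiber_le [Fintype F] (C : Finset V) (x : V)
    (v : V ⧸ Submodule.span F ({x} : Set V)) :
    #(C.filter fun y => Submodule.mkQ (Submodule.span F {x}) y = v) ≤ Fintype.card F := by
  by_cases hne : (C.filter fun y => Submodule.mkQ (Submodule.span F {x}) y = v).Nonempty
  · obtain ⟨y₀, hy₀⟩ := hne
    have : (C.filter fun y => Submodule.mkQ (Submodule.span F {x}) y = v) ⊆
        (univ : Finset F).image (fun a => y₀ + a • x) := by
      intro y hy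
      rw [mem_filter] at hy hy₀
      have h1 : y - y₀ ∈ Submodule.span F ({x} : Set V) := by
        rw [← Submodule.Quotient.eq, ← Submodule.mkQ_apply, ← Submodule.mkQ_apply,
          hy.2, hy₀.2]
      obtain ⟨a, ha⟩ := Submodule.mem_span_singleton.1 h1
      exact mem_image.2 ⟨a, mem_univ _, by rw [ha, add_sub_cancel]⟩
    exact (card_le_card this).trans (card_image_le.trans card_univ.le)
  · rw [not_nonempty_iff_eq_empty] at hne
    rw [hne, card_empty]
    exact Nat.zero_le _

theorem card_le_mul_contract [Fintype F] (C : Finset V) (x : V) :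
    #C ≤ Fintype.card F * #(C.image (Submodule.mkQ (Submodule.span F {x}))) :=
  card_le_mul_card_image C _ fun v _ => card_fiber_le C x v

/-- Every loss of points under contraction is paid by additive triples. -/
theorem sum_loss_le [Fintype F] (C : Finset V) (hC : ∀ (a : F), ∀ x ∈ C, a • x ∈ C) :
    ∑ x ∈ C.erase 0, (#C - #(C.image (Submodule.mkQ (Submodule.span F {x})))) ≤
      Fintype.card F * tri C := by
  have h1 : ∀ x ∈ C.erase 0, #C - #(C.image (Submodule.mkQ (Submodule.span F {x}))) ≤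
      #(((univ : Finset F) ×ˢ C).filter fun p => p.1 ≠ 0 ∧ p.2 + p.1 • x ∈ C) := by
    intro x hx
    obtain ⟨hx0, hxC⟩ := mem_erase.1 hx
    set π := Submodule.mkQ (Submodule.span F {x}) with hπ
    obtain ⟨X₁, hX₁, hinj, himg⟩ := Finset.exists_subset_injOn_image_eq_of_surjOn (f := π) C
      (C.image π) (by rw [coe_image]; exact Set.surjOn_image _ _)
    have hX₁' : X₁ ⊆ C := by exact_mod_cast hX₁
    have hrep : ∀ y : V, ∃ p : F × V, y ∈ C \ X₁ → p.1 ≠ 0 ∧ p.2 ∈ C ∧ p.2 + p.1 • x = y := by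
      intro y
      by_cases hy : y ∈ C \ X₁
      · rw [mem_sdiff] at hy
        have : π y ∈ X₁.image π := by rw [himg]; exact mem_image_of_mem _ hy.1
        obtain ⟨z, hz, hzy⟩ := mem_image.1 this
        have h2 : y - z ∈ Submodule.span F ({x} : Set V) := by
          rw [← Submodule.Quotient.eq, ← Submodule.mkQ_apply, ← Submodule.mkQ_apply]
          exact hzy.symm
        obtain ⟨a, ha⟩ := Submodule.mem_span_singleton.1 h2
        refine ⟨(a, z), fun _ => ⟨?_, hX₁' hz, by rw [ha, add_sub_cancel]⟩⟩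
        rintro rfl
        rw [zero_smul] at ha
        have : y = z := (sub_eq_zero.1 ha.symm)
        exact hy.2 (this ▸ hz)
      · exact ⟨(0, 0), fun h => absurd h hy⟩
    choose r hr using hrep
    have h3 : #C - #(C.image π) = #(C \ X₁) := by
      rw [card_sdiff_of_subset hX₁', ← himg, card_image_of_injOn hinj]
    rw [h3]
    apply card_le_card_of_injOn r
    · intro y hy
      obtain ⟨h4, h5, h6⟩ := hr y hy
      rw [mem_coe, mem_filter, mem_product]
      refine ⟨⟨mem_univ _, h5⟩, h4, ?_⟩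
      rw [h6]
      exact (mem_sdiff.1 hy).1
    · intro y hy y' hy' hyy
      obtain ⟨_, _, h6⟩ := hr y hy
      obtain ⟨_, _, h6'⟩ := hr y' hy'
      rw [← h6, ← h6', hyy]
  refine (sum_le_sum h1).trans ?_
  rw [tri, ← card_univ, ← card_product, ← card_sigma]
  apply card_le_card_of_injOn
    (fun p : (_ : V) × (F × V) => (p.2.1, (p.2.2, p.2.1 • p.1)))
  · rintro ⟨x, a, y⟩ hp
    simp only [coe_sigma, Set.mem_sigma_iff, mem_coe, mem_erase, mem_filter, mem_product,
      mem_univ, true_and] at hp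
    rw [mem_coe, mem_product, mem_filter, mem_product]
    exact ⟨mem_univ _, ⟨hp.2.1, hC a x hp.1.2⟩, hp.2.2.2⟩
  · rintro ⟨x, a, y⟩ hp ⟨x', a', y'⟩ hp' h
    simp only [coe_sigma, Set.mem_sigma_iff, mem_coe, mem_erase, mem_filter, mem_product,
      mem_univ, true_and] at hp hp'
    simp only [Prod.mk.injEq] at h
    obtain ⟨rfl, rfl, h3⟩ := h
    have : x = x' := by
      have := congrArg (fun z => a⁻¹ • z) h3
      simpa [smul_smul, inv_mul_cancel₀ hp.2.2.1] using this
    rw [this]

end Pool.Agent.H456.GW
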