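import Pool.Agent.H456.GW.Lost

/-!
# Minors with few dimensions and many points
-/

open Finset Module

open scoped Classical

namespace Pool.Agent.H456.GW

variable {F : Type} [Field F] [Fintype F]
variable {V V' V'' : Type} [AddCommGroup V] [Module F V] [AddCommGroup V'] [Module F V']
  [AddCommGroup V''] [Module F V'']

/-- `E` has a minor of rank at most `m` whose cone has at least `k` members. -/
def Mn (F : Type) [Field F] [Fintype F] {V : Type} [AddCommGroup V] [Module F V] (m k : ℕ)
    (E : Finset V) : Prop :=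
  ∃ (V' : Type) (_ : AddCommGroup V') (_ : Module F V') (π : V →ₗ[F] V') (E₀ : Finset V),
    E₀ ⊆ E ∧ KerOK π E₀ ∧ rnk F (E₀.image π) ≤ m ∧ k ≤ #(cone F (E₀.image π))

theorem Mn.of_contract {m k : ℕ} {E : Finset V} {π : V →ₗ[F] V'} (hπ : KerOK π E)
    (h : Mn F m k (E.image π)) : Mn F m k E := by
  obtain ⟨V'', _, _, π', E₀', hE₀', hker, hr, hc⟩ := h
  set E₀ := E.filter fun x => π x ∈ E₀' ∨ π x = 0 with hE₀
  have h1 : E₀' ⊆ E₀.image π := by
    intro y hy
    obtain ⟨x, hx, rfl⟩ := mem_image.1 (hE₀' hy)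
    exact mem_image_of_mem _ (mem_filter.2 ⟨hx, Or.inl hy⟩)
  have h2 : KerOK π E₀ := by
    refine hπ.trans (Submodule.span_mono ?_)
    rintro x ⟨hx, hx0⟩
    exact ⟨mem_filter.2 ⟨hx, Or.inr hx0⟩, hx0⟩
  have himg : E₀.image (π' ∘ₗ π) = (E₀.image π).image π' := by
    rw [image_image, LinearMap.coe_comp]
  refine ⟨V'', _, _, π' ∘ₗ π, E₀, filter_subset _ _, h2.comp (hker.mono h1), ?_, ?_⟩
  · rw [himg]
    refine le_trans ?_ hr
    unfold rnk
    apply Submodule.finrank_mono
    rw [Submodule.span_le]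
    intro y hy
    rw [mem_coe, mem_image] at hy
    obtain ⟨z, hz, rfl⟩ := hy
    obtain ⟨x, hx, rfl⟩ := mem_image.1 hz
    rcases (mem_filter.1 hx).2 with h3 | h3
    · apply Submodule.subset_span
      rw [mem_coe]
      exact mem_image_of_mem _ h3
    · rw [h3, map_zero]
      exact Submodule.zero_mem _
  · rw [himg]
    exact hc.trans (card_le_card (cone_mono (image_subset_image h1)))

theorem doubling {m k : ℕ} {E₁ : Finset V} {x : V} (hx : x ∈ E₁) (hx0 : x ≠ 0)
    {EY : Finset (V ⧸ Submodule.span F ({x} : Set V))}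
    (hEY : EY ⊆ E₁.image (Submodule.mkQ (Submodule.span F {x})))
    (hM : ∀ y ∈ EY, y ∈ mul (Submodule.mkQ (Submodule.span F {x})) (cone F E₁))
    (hk : 0 < k) (h : Mn F m k EY) : Mn F (m + 1) (2 * k) E₁ := by
  set ρ := Submodule.mkQ (Submodule.span F ({x} : Set V)) with hρ
  have hρx : ρ x = 0 := by
    rw [hρ, Submodule.mkQ_apply, Submodule.Quotient.mk_eq_zero]
    exact Submodule.mem_span_singleton_self x
  obtain ⟨V₃, _, _, π₃, E₀, hE₀, hker, hr, hc⟩ := h
  obtain ⟨T, hTS, hTspan, hTli⟩ := exists_linearIndependent F {e | e ∈ E₀ ∧ π₃ e = 0}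
  have hlift : ∀ t, ∃ f, t ∈ T → f ∈ E₁ ∧ ρ f = t := by
    intro t
    by_cases ht : t ∈ T
    · obtain ⟨f, hf, hft⟩ := mem_image.1 (hEY (hE₀ (hTS ht).1))
      exact ⟨f, fun _ => ⟨hf, hft⟩⟩
    · exact ⟨0, fun h => absurd h ht⟩
  choose ℓ hℓ using hlift
  set W := Submodule.span F (ℓ '' T) with hW
  set τ := Submodule.mkQ W with hτ
  have hdisj : Disjoint W (LinearMap.ker ρ) := by
    have hli : LinearIndependent F (ρ ∘ fun t : T => ℓ t) := by
      have : (ρ ∘ fun t : T => ℓ t) = fun t : T => (t : V ⧸ Submodule.span F ({x} : Set V)) := by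
        funext t
        exact (hℓ t t.2).2
      rw [this]
      exact hTli
    have := Submodule.range_ker_disjoint hli
    have h2 : Set.range (fun t : T => ℓ t) = ℓ '' T := by
      ext y
      simp
    rwa [h2] at this
  have hmapW : W.map ρ = Submodule.span F T := by
    rw [hW, Submodule.map_span]
    congr 1
    ext y
    constructor
    · rintro ⟨_, ⟨t, ht, rfl⟩, rfl⟩
      rw [(hℓ t ht).2]
      exact ht
    · intro hy
      exact ⟨ℓ y, ⟨y, hy, rfl⟩, (hℓ y hy).2⟩
  have hWker : W ≤ LinearMap.ker (π₃ ∘ₗ ρ) := by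
    rw [hW, Submodule.span_le]
    rintro _ ⟨t, ht, rfl⟩
    rw [SetLike.mem_coe, LinearMap.mem_ker, LinearMap.comp_apply, (hℓ t ht).2]
    exact (hTS ht).2
  set σ := W.liftQ (π₃ ∘ₗ ρ) hWker with hσ
  have hστ : ∀ v, σ (τ v) = π₃ (ρ v) := fun v => rfl
  set E₁₀ := E₁.filter fun f => ρ f ∈ cone F E₀ with hE₁₀
  have hE₀ne : E₀.Nonempty := by
    rw [nonempty_iff_ne_empty]
    rintro rfl
    have : cone F ((∅ : Finset _).image π₃) = ∅ := by
      simp [cone]
    rw [this, card_empty] at hc
    omega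
  have hxE₁₀ : x ∈ E₁₀ := mem_filter.2 ⟨hx, by rw [hρx]; exact zero_mem_cone hE₀ne⟩
  have hkerσ : ∀ v, σ v = 0 → v ∈ Submodule.span F {τ x} := by
    intro v hv
    obtain ⟨u, rfl⟩ := Submodule.mkQ_surjective W v
    change σ (τ u) = 0 at hv
    rw [hστ] at hv
    have h1 : ρ u ∈ W.map ρ := by
      rw [hmapW, hTspan]
      exact hker (LinearMap.mem_ker.2 hv)
    obtain ⟨u', hu', huu⟩ := h1
    have h2 : u - u' ∈ Submodule.span F ({x} : Set V) := by
      rw [← Submodule.Quotient.eq, ← Submodule.mkQ_apply, ← Submodule.mkQ_apply]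
      exact huu.symm
    obtain ⟨a, ha⟩ := Submodule.mem_span_singleton.1 h2
    have h3 : W.mkQ u = a • τ x := by
      have h4 : u = u' + a • x := by rw [ha, add_sub_cancel]
      have h5 : τ u' = 0 := by
        rw [hτ, Submodule.mkQ_apply, Submodule.Quotient.mk_eq_zero]
        exact hu'
      calc W.mkQ u = τ (u' + a • x) := by rw [← h4]
        _ = a • τ x := by rw [map_add, h5, zero_add, map_smul]
    rw [h3]
    exact Submodule.smul_mem _ _ (Submodule.mem_span_singleton_self _)
  refine ⟨V ⧸ W, _, _, τ, E₁₀, filter_subset _ _, ?_, ?_, ?_⟩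
  · unfold KerOK
    rw [hτ, Submodule.ker_mkQ, hW]
    apply Submodule.span_mono
    rintro _ ⟨t, ht, rfl⟩
    refine ⟨mem_filter.2 ⟨(hℓ t ht).1, ?_⟩, ?_⟩
    · rw [(hℓ t ht).2]
      exact subset_cone _ (hTS ht).1
    · rw [Submodule.mkQ_apply, Submodule.Quotient.mk_eq_zero]
      exact Submodule.subset_span ⟨t, ht, rfl⟩
  · set S := Submodule.span F ((E₁₀.image τ : Finset (V ⧸ W)) : Set (V ⧸ W)) with hS
    have h1 := LinearMap.finrank_range_add_finrank_ker (σ.domRestrict S)
    have h2 : LinearMap.range (σ.domRestrict S) = S.map σ := by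
      rw [LinearMap.domRestrict, LinearMap.range_comp, Submodule.range_subtype]
    have h3 : finrank F (S.map σ) ≤ m := by
      refine le_trans ?_ hr
      unfold rnk
      apply Submodule.finrank_mono
      rw [hS, Submodule.map_span, Submodule.span_le]
      rintro _ ⟨y, hy, rfl⟩
      rw [mem_coe, mem_image] at hy
      obtain ⟨f, hf, rfl⟩ := hy
      rw [hστ, SetLike.mem_coe]
      apply cone_subset_span
      rw [← image_cone]
      exact mem_image_of_mem _ (mem_filter.1 hf).2
    have h4 : finrank F (LinearMap.ker (σ.domRestrict S)) ≤ 1 := by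
      have h5 : finrank F ((LinearMap.ker (σ.domRestrict S)).map S.subtype) =
          finrank F (LinearMap.ker (σ.domRestrict S)) :=
        (Submodule.equivMapOfInjective _ S.injective_subtype _).finrank_eq.symm
      rw [← h5]
      have h6 : (LinearMap.ker (σ.domRestrict S)).map S.subtype ≤
          Submodule.span F {τ x} := by
        rintro _ ⟨y, hy, rfl⟩
        exact hkerσ _ hy
      refine (Submodule.finrank_mono h6).trans ?_
      exact finrank_span_le_card ({τ x} : Set (V ⧸ W)) |>.trans (by simp)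
    rw [h2] at h1
    change finrank F S ≤ m + 1
    omega
  · have h1 : 2 * #(cone F (E₀.image π₃)) ≤
        #((cone F (E₁₀.image τ)).filter fun v => σ v ∈ cone F (E₀.image π₃)) := by
      apply mul_card_image_le_card_of_maps_to (f := σ)
      · intro v hv
        exact (mem_filter.1 hv).2
      · intro u hu
        obtain ⟨y, hy, rfl⟩ := mem_image.1 ((image_cone π₃ E₀).symm ▸ hu)
        obtain ⟨f₁, f₂, hf₁, hf₂, hne, hf₁y, hf₂y⟩ : ∃ f₁ f₂, f₁ ∈ cone F E₁ ∧ f₂ ∈ cone F E₁ ∧
            f₁ ≠ f₂ ∧ ρ f₁ = y ∧ ρ f₂ = y := by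
          obtain ⟨a, e, he, rfl⟩ := mem_cone.1 hy
          by_cases ha : a = 0
          · refine ⟨0, x, zero_mem_cone ⟨x, hx⟩, subset_cone _ hx, Ne.symm hx0, ?_, ?_⟩
            · rw [map_zero, ha, zero_smul]
            · rw [hρx, ha, zero_smul]
          · have h2 := hM e (hE₀ he)
            rw [mul, mem_filter] at h2
            obtain ⟨g₁, hg₁, g₂, hg₂, hgne⟩ := one_lt_card.1 h2.2
            rw [mem_filter] at hg₁ hg₂
            refine ⟨a • g₁, a • g₂, smul_mem_cone _ hg₁.1, smul_mem_cone _ hg₂.1, ?_, ?_, ?_⟩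
            · intro h3
              apply hgne
              have := congrArg (fun z => a⁻¹ • z) h3
              simpa [smul_smul, inv_mul_cancel₀ ha] using this
            · rw [map_smul, hg₁.2]
            · rw [map_smul, hg₂.2]
        have hmem : ∀ f ∈ cone F E₁, ρ f = y → τ f ∈ ((cone F (E₁₀.image τ)).filter
            fun v => σ v ∈ cone F (E₀.image π₃)).filter fun v => σ v = π₃ y := by
          intro f hf hfy
          rw [mem_filter, mem_filter, hστ, hfy]
          refine ⟨⟨?_, hu⟩, rfl⟩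
          obtain ⟨b, g, hg, rfl⟩ := mem_cone.1 hf
          rw [map_smul]
          by_cases hb : b = 0
          · rw [hb, zero_smul]
            exact zero_mem_cone ⟨τ x, mem_image_of_mem _ hxE₁₀⟩
          · apply smul_mem_cone
            apply subset_cone
            apply mem_image_of_mem
            refine mem_filter.2 ⟨hg, ?_⟩
            have : ρ g = b⁻¹ • y := by
              rw [← hfy, map_smul, smul_smul, inv_mul_cancel₀ hb, one_smul]
            rw [this]
            exact smul_mem_cone _ hy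
        have h3 : 1 < #(((cone F (E₁₀.image τ)).filter
            fun v => σ v ∈ cone F (E₀.image π₃)).filter fun v => σ v = π₃ y) := by
          rw [one_lt_card]
          refine ⟨_, hmem f₁ hf₁ hf₁y, _, hmem f₂ hf₂ hf₂y, ?_⟩
          intro h4
          rw [hτ, Submodule.mkQ_apply, Submodule.mkQ_apply, Submodule.Quotient.eq] at h4
          have h5 : f₁ - f₂ ∈ LinearMap.ker ρ := by
            rw [LinearMap.mem_ker, map_sub, hf₁y, hf₂y, sub_self]
          have := Submodule.disjoint_def.1 hdisj _ h4 h5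
          exact hne (sub_eq_zero.1 this)
        exact h3
    have h2 := card_le_card (filter_subset (fun v => σ v ∈ cone F (E₀.image π₃))
      (cone F (E₁₀.image τ)))
    omega

end Pool.Agent.H456.GW
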