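import Mathlib

/-!
# Complete bipartite patterns on independent vectors
-/

open Finset Module

open scoped Classical

namespace Pool.Agent.H456.GW

variable {F : Type} [Field F] {V : Type} [AddCommGroup V] [Module F V]

theorem greedy_z {M : Finset V} {G : V → V → Prop} {κ θ β s : ℕ}
    (hW : ∀ W : Submodule F V, FiniteDimensional F W →
      #(M.filter (· ∈ W)) ≤ κ * (finrank F W + 1))
    (hβ : 2 * #M ≤ β * θ) (hθ : 0 < θ) (hs : 2 * (κ * (s + 1)) ≤ θ) {X₀ : Finset V}
    (hX₀ : ∀ w ∈ X₀, θ ≤ #(M.filter (fun v => G v w))) (hne : X₀.Nonempty) (i : ℕ)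
    (hi : i ≤ s) :
    ∃ (z : Fin i → V) (X : Finset V), LinearIndependent F z ∧ X ⊆ X₀ ∧
      #X₀ ≤ β ^ i * #X ∧ ∀ j, ∀ w ∈ X, G (z j) w := by
  induction i with
  | zero =>
    refine ⟨fun j => j.elim0, X₀, linearIndependent_empty_type, Subset.refl _, by simp, ?_⟩
    intro j
    exact j.elim0
  | succ i ih =>
    obtain ⟨z, X, hz, hX, hcard, hG⟩ := ih (by omega)
    have hXpos : 0 < #X := by
      rcases Nat.eq_zero_or_pos #X with h | h
      · rw [h, mul_zero] at hcard
        have := card_pos.2 hne
        omega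
      · exact h
    set Z := Submodule.span F (Set.range z) with hZ
    have hZfin : FiniteDimensional F Z := FiniteDimensional.span_of_finite F (Set.finite_range z)
    have hZr : finrank F Z ≤ i := by
      have := finrank_range_le_card (R := F) z
      rw [Fintype.card_fin] at this
      exact this
    have hbad : #(M.filter (· ∈ Z)) ≤ κ * (s + 1) :=
      (hW Z hZfin).trans (Nat.mul_le_mul_left _ (by omega))
    set M' := M.filter (· ∉ Z) with hM'
    have hdeg : ∀ w ∈ X, θ ≤ 2 * #(M'.filter (fun v => G v w)) := by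
      intro w hw
      have h1 := hX₀ w (hX hw)
      have h2 : M.filter (fun v => G v w) ⊆ M.filter (· ∈ Z) ∪ M'.filter (fun v => G v w) := by
        intro v hv
        rw [mem_filter] at hv
        rw [mem_union, mem_filter, mem_filter, hM', mem_filter]
        by_cases hvZ : v ∈ Z
        · exact Or.inl ⟨hv.1, hvZ⟩
        · exact Or.inr ⟨⟨hv.1, hvZ⟩, hv.2⟩
      have h3 := (card_le_card h2).trans (card_union_le _ _)
      omega
    have hdc : ∑ w ∈ X, #(M'.filter (fun v => G v w)) =
        ∑ v ∈ M', #(X.filter (fun w => G v w)) := by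
      simp only [card_filter]
      exact sum_comm
    obtain ⟨v, hv, hvX⟩ : ∃ v ∈ M', #X ≤ β * #(X.filter (fun w => G v w)) := by
      by_contra hall
      push Not at hall
      have h1 : #X * θ ≤ 2 * ∑ v ∈ M', #(X.filter (fun w => G v w)) := by
        rw [← hdc, mul_sum, ← smul_eq_mul, ← sum_const]
        exact sum_le_sum hdeg
      have hM'ne : M'.Nonempty := by
        rw [nonempty_iff_ne_empty]
        intro h0
        rw [h0, sum_empty, mul_zero] at h1
        have := Nat.mul_pos hXpos hθ
        omega
      have h2 := sum_lt_sum_of_nonempty hM'ne hall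
      rw [← mul_sum, sum_const, smul_eq_mul] at h2
      have h3 : #M' ≤ #M := card_le_card (filter_subset _ _)
      have h4 : β * (#X * θ) ≤ β * (2 * ∑ v ∈ M', #(X.filter (fun w => G v w))) :=
        Nat.mul_le_mul_left _ h1
      have h5 : 2 * #M * #X ≤ β * θ * #X := Nat.mul_le_mul_right _ hβ
      have h6 : #M' * #X ≤ #M * #X := Nat.mul_le_mul_right _ h3
      nlinarith
    have hvM : v ∈ M ∧ v ∉ Z := mem_filter.1 hv
    refine ⟨Fin.cons v z, X.filter (fun w => G v w), ?_, (filter_subset _ _).trans hX, ?_, ?_⟩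
    · rw [linearIndependent_finCons]
      exact ⟨hz, hvM.2⟩
    · calc #X₀ ≤ β ^ i * #X := hcard
        _ ≤ β ^ i * (β * #(X.filter (fun w => G v w))) := Nat.mul_le_mul_left _ hvX
        _ = β ^ (i + 1) * #(X.filter (fun w => G v w)) := by ring
    · intro j w hw
      rw [mem_filter] at hw
      refine Fin.cases ?_ (fun j => ?_) j
      · exact hw.2
      · exact hG j w hw.1

theorem greedy_w {M : Finset V} {κ s : ℕ}
    (hW : ∀ W : Submodule F V, FiniteDimensional F W →
      #(M.filter (· ∈ W)) ≤ κ * (finrank F W + 1)) {X : Finset V} (hXM : X ⊆ M)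
    (Z : Submodule F V) (hZfin : FiniteDimensional F Z) (hZ : finrank F Z ≤ s)
    (hX : κ * (2 * s + 1) < #X) (i : ℕ) (hi : i ≤ s) :
    ∃ w : Fin i → V, LinearIndependent F (fun j => Z.mkQ (w j)) ∧ ∀ j, w j ∈ X := by
  induction i with
  | zero => exact ⟨fun j => j.elim0, linearIndependent_empty_type, fun j => j.elim0⟩
  | succ i ih =>
    obtain ⟨w, hw, hwX⟩ := ih (by omega)
    set W := Z ⊔ Submodule.span F (Set.range w) with hWdef
    have h1 : FiniteDimensional F (Submodule.span F (Set.range w)) :=
      FiniteDimensional.span_of_finite F (Set.finite_range w)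
    have h2 : FiniteDimensional F W := Submodule.finiteDimensional_sup _ _
    have h3 : finrank F W ≤ 2 * s := by
      have h4 := Submodule.finrank_add_le_finrank_add_finrank Z (Submodule.span F (Set.range w))
      have h5 := finrank_range_le_card (R := F) w
      rw [Fintype.card_fin] at h5
      have h6 : finrank F (Submodule.span F (Set.range w)) ≤ i := h5
      have h7 : finrank F W ≤ finrank F Z + finrank F (Submodule.span F (Set.range w)) := h4
      omega
    obtain ⟨v, hvX, hvW⟩ : ∃ v ∈ X, v ∉ W := by
      by_contra hall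
      push Not at hall
      have h4 : X ⊆ M.filter (· ∈ W) := fun v hv => mem_filter.2 ⟨hXM hv, hall v hv⟩
      have h5 := (card_le_card h4).trans (hW W h2)
      have h6 : κ * (finrank F W + 1) ≤ κ * (2 * s + 1) := Nat.mul_le_mul_left _ (by omega)
      omega
    refine ⟨Fin.cons v w, ?_, ?_⟩
    · have h4 : (fun j => Z.mkQ ((Fin.cons v w : Fin (i + 1) → V) j)) =
          (Fin.cons (Z.mkQ v) (fun j => Z.mkQ (w j)) : Fin (i + 1) → V ⧸ Z) := by
        funext j
        refine Fin.cases ?_ (fun j => ?_) j
        · rfl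
        · rfl
      rw [h4, linearIndependent_finCons]
      refine ⟨hw, fun hmem => hvW ?_⟩
      have h5 : Set.range (fun j => Z.mkQ (w j)) = Z.mkQ '' Set.range w := by
        rw [← Set.range_comp]
        rfl
      rw [h5, ← Submodule.map_span] at hmem
      obtain ⟨y, hy, hyv⟩ := hmem
      rw [Submodule.mkQ_apply, Submodule.mkQ_apply, Submodule.Quotient.eq] at hyv
      have h6 : v = -(y - v) + y := by abel
      rw [h6]
      exact Submodule.add_mem_sup (Z.neg_mem hyv) hy
    · intro j
      refine Fin.cases ?_ (fun j => ?_) j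
      · exact hvX
      · exact hwX j

/-- Many related pairs among few vectors, with few of them in any subspace, contain a complete
bipartite pattern on independent vectors. -/
theorem exists_bipartite {M : Finset V} {G : V → V → Prop} {κ θ β s : ℕ}
    (hW : ∀ W : Submodule F V, FiniteDimensional F W →
      #(M.filter (· ∈ W)) ≤ κ * (finrank F W + 1))
    (hM : M.Nonempty) (hg : 2 * θ * #M ≤ #((M ×ˢ M).filter fun p => G p.1 p.2))
    (hβ : 2 * #M ≤ β * θ) (hs : 2 * (κ * (s + 1)) ≤ θ)
    (hθ : β ^ s * (κ * (2 * s + 1)) < θ) :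
    ∃ z w : Fin s → V, LinearIndependent F z ∧
      LinearIndependent F (fun j => (Submodule.span F (Set.range z)).mkQ (w j)) ∧
      ∀ i j, G (z i) (w j) := by
  have hθ0 : 0 < θ := by omega
  set X₀ := M.filter fun w => θ ≤ #(M.filter (fun v => G v w)) with hX₀
  have h1 : #((M ×ˢ M).filter fun p => G p.1 p.2) =
      ∑ w ∈ M, #(M.filter (fun v => G v w)) := by
    simp only [card_filter]
    rw [sum_product, sum_comm]
  have h2 : ∑ w ∈ M, #(M.filter (fun v => G v w)) ≤ #X₀ * #M + #M * θ := by
    calc ∑ w ∈ M, #(M.filter (fun v => G v w))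
        ≤ ∑ w ∈ M, ((if θ ≤ #(M.filter (fun v => G v w)) then #M else 0) + θ) := by
          apply sum_le_sum
          intro w _
          split_ifs with h
          · exact (card_le_card (filter_subset _ _)).trans (Nat.le_add_right _ _)
          · omega
      _ = #X₀ * #M + #M * θ := by
          rw [sum_add_distrib, ← sum_filter, sum_const, sum_const, smul_eq_mul, smul_eq_mul]
  have hMpos : 0 < #M := card_pos.2 hM
  have h3 : θ ≤ #X₀ := by
    by_contra hlt
    push Not at hlt
    have : #X₀ * #M < θ * #M := Nat.mul_lt_mul_of_pos_right hlt hMpos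
    rw [h1] at hg
    nlinarith
  obtain ⟨z, X, hz, hX, hcard, hG⟩ := greedy_z (X₀ := X₀) hW hβ hθ0 hs
    (fun w hw => (mem_filter.1 hw).2) (card_pos.1 (lt_of_lt_of_le hθ0 h3)) s le_rfl
  have h4 : κ * (2 * s + 1) < #X := by
    by_contra hle
    push Not at hle
    have : β ^ s * #X ≤ β ^ s * (κ * (2 * s + 1)) := Nat.mul_le_mul_left _ hle
    omega
  have hZr : finrank F (Submodule.span F (Set.range z)) ≤ s := by
    have := finrank_range_le_card (R := F) z
    rw [Fintype.card_fin] at this
    exact this
  obtain ⟨w, hw, hwX⟩ := greedy_w hW (hX.trans (filter_subset _ _))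
    (Submodule.span F (Set.range z))
    (FiniteDimensional.span_of_finite F (Set.finite_range z)) hZr h4 s le_rfl
  exact ⟨z, w, hz, hw, fun i j => hG i (w j) (hwX j)⟩

end Pool.Agent.H456.GW
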