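import Mathlib

/-!
# A one-inclusion bound for families of functions
-/

open Finset

namespace Pool.Agent.H456.GW

variable {κ Λ : Type*} [DecidableEq κ] [Zero Λ]

/-- Replace the values outside `A` by zero. -/
def tr (A : Finset κ) (x : κ → Λ) : κ → Λ := fun i => if i ∈ A then x i else 0

theorem tr_tr {A B : Finset κ} (h : A ⊆ B) (x : κ → Λ) : tr A (tr B x) = tr A x := by
  funext i
  unfold tr
  by_cases hi : i ∈ A
  · simp [hi, h hi]
  · simp [hi]

theorem tr_apply {A : Finset κ} {i : κ} (h : i ∈ A) (x : κ → Λ) : tr A x i = x i := by
  simp [tr, h]

theorem tr_eq_iff {A : Finset κ} {x y : κ → Λ} : tr A x = tr A y ↔ ∀ i ∈ A, x i = y i := by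
  constructor
  · intro h i hi
    have := congrFun h i
    rwa [tr_apply hi, tr_apply hi] at this
  · intro h
    funext i
    unfold tr
    split_ifs with hi
    · exact h i hi
    · rfl

/-- The number of restrictions to `A`. -/
noncomputable def NN (A : Finset κ) (X : Finset (κ → Λ)) : ℕ := by
  classical exact #(X.image (tr A))

open Classical in
theorem NN_eq (A : Finset κ) (X : Finset (κ → Λ)) : NN A X = #(X.image (tr A)) := by
  unfold NN
  congr!

/-- The one-inclusion bound: if `X` has fewer than `2 ^ (D + 1)` restrictions to each set of `D + 1`
coordinates in `A`, then the numbers of restrictions to `A` and to `A` minus one coordinate differ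
by at most `D |X|` in total. -/
theorem one_inc [Fintype Λ] (A : Finset κ) (D : ℕ) (X : Finset (κ → Λ))
    (h : ∀ J ⊆ A, #J = D + 1 → NN J X < 2 ^ (D + 1)) :
    #A * NN A X ≤ D * NN A X + ∑ i ∈ A, NN (A.erase i) X := by
  classical
  induction A using Finset.induction generalizing D X with
  | empty => simp
  | insert a A' ha ih =>
    set A := insert a A' with hA
    have hA'A : A' ⊆ A := subset_insert _ _
    have haA : a ∈ A := mem_insert_self _ _
    have hcA : #A = #A' + 1 := card_insert_of_notMem ha
    cases D with
    | zero =>
      rw [zero_mul, zero_add, ← smul_eq_mul, ← sum_const]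
      apply sum_le_sum
      intro i hi
      rcases X.eq_empty_or_nonempty with hX | hX
      · simp [NN_eq, hX]
      · have h1 : 0 < NN (A.erase i) X := by
          rw [NN_eq]
          exact card_pos.2 (hX.image _)
        have h2 : NN A X ≤ 1 := by
          rw [NN_eq, card_le_one]
          intro x' hx' y' hy'
          obtain ⟨x, hx, rfl⟩ := mem_image.1 hx'
          obtain ⟨y, hy, rfl⟩ := mem_image.1 hy'
          rw [tr_eq_iff]
          intro j hj
          have h3 := h {j} (singleton_subset_iff.2 hj) (card_singleton _)
          rw [zero_add, pow_one, NN_eq] at h3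
          have h4 := card_le_one.1 (Nat.lt_succ_iff.1 h3) _ (mem_image_of_mem _ hx) _
            (mem_image_of_mem _ hy)
          exact (tr_eq_iff.1 h4) j (mem_singleton_self _)
        omega
    | succ D =>
      set Y := X.image (tr A) with hY
      set Z := X.image (tr A') with hZ
      set fib : (κ → Λ) → ℕ := fun u => #(Y.filter (fun y => tr A' y = u)) with hfib
      set q := Fintype.card Λ with hq
      have hq0 : 0 < q := Fintype.card_pos
      have hYA : ∀ y ∈ Y, tr A y = y := by
        intro y hy
        obtain ⟨x, _, rfl⟩ := mem_image.1 hy
        exact tr_tr (Subset.refl _) x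
      have hZA : ∀ z ∈ Z, tr A' z = z := by
        intro y hy
        obtain ⟨x, _, rfl⟩ := mem_image.1 hy
        exact tr_tr (Subset.refl _) x
      have hYZ : ∀ y ∈ Y, tr A' y ∈ Z := by
        intro y hy
        obtain ⟨x, hx, rfl⟩ := mem_image.1 hy
        rw [tr_tr hA'A]
        exact mem_image_of_mem _ hx
      -- elements over the same point with the same value at `a` agree
      have hval : ∀ y ∈ Y, ∀ y' ∈ Y, tr A' y = tr A' y' → y a = y' a → y = y' := by
        intro y hy y' hy' h1 h2
        rw [← hYA y hy, ← hYA y' hy', tr_eq_iff]
        intro i hi
        rcases mem_insert.1 hi with rfl | hi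
        · exact h2
        · exact tr_eq_iff.1 h1 i hi
      have hfibq : ∀ u, fib u ≤ q := by
        intro u
        rw [hq, ← card_univ]
        apply card_le_card_of_injOn (fun y => y a) (fun _ _ => mem_coe.2 (mem_univ _))
        intro y hy y' hy' hyy
        rw [mem_coe, mem_filter] at hy hy'
        exact hval y hy.1 y' hy'.1 (hy.2.trans hy'.2.symm) hyy
      have hfib1 : ∀ u ∈ Z, 0 < fib u := by
        intro u hu
        obtain ⟨x, hx, rfl⟩ := mem_image.1 hu
        apply card_pos.2
        exact ⟨tr A x, mem_filter.2 ⟨mem_image_of_mem _ hx, tr_tr hA'A x⟩⟩
      set Zt : ℕ → Finset (κ → Λ) := fun t => Z.filter (fun u => t < fib u) with hZt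
      have hZ0 : Zt 0 = Z := filter_true_of_mem hfib1
      have hcount : ∀ m : ℕ, m ≤ q → #((range q).filter (fun t => t < m)) = m := by
        intro m hm
        have : (range q).filter (fun t => t < m) = range m := by
          ext t
          simp only [mem_filter, mem_range]
          omega
        rw [this, card_range]
      have hcount' : ∀ m : ℕ, #((range q).filter (fun t => t < m)) ≤ m := by
        intro m
        have : (range q).filter (fun t => t < m) ⊆ range m := by
          intro t
          simp only [mem_filter, mem_range]
          omega
        exact (card_le_card this).trans (card_range m).le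
      have hsum : ∑ t ∈ range q, #(Zt t) = #Y := by
        have h1 : #Y = ∑ u ∈ Z, fib u := card_eq_sum_card_fiberwise hYZ
        rw [h1]
        simp only [hZt, card_filter]
        rw [sum_comm]
        apply sum_congr rfl
        intro u _
        rw [← card_filter]
        exact hcount _ (hfibq u)
      have hNZt : ∀ t, NN A' (Zt t) = #(Zt t) := by
        intro t
        rw [NN_eq]
        have : (Zt t).image (tr A') = Zt t := by
          ext z
          simp only [mem_image]
          constructor
          · rintro ⟨y, hy, rfl⟩
            rw [hZA y (mem_filter.1 hy).1]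
            exact hy
          · intro hz
            exact ⟨z, hz, hZA z (mem_filter.1 hz).1⟩
        rw [this]
      have hNY : NN A X = #Y := NN_eq A X
      -- the induction hypothesis for the lowest level
      have ih0 : #A' * #(Zt 0) ≤ (D + 1) * #(Zt 0) + ∑ i ∈ A', NN (A'.erase i) (Zt 0) := by
        have := ih (D + 1) (Zt 0) (by
          intro J hJ hJc
          have h1 := h J (hJ.trans hA'A) hJc
          rw [hZ0, NN_eq, hZ, image_image]
          rw [NN_eq] at h1
          convert h1 using 4
          funext x
          exact tr_tr hJ x)
        rwa [hNZt] at this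
      have iht : ∀ t, 0 < t → #A' * #(Zt t) ≤ D * #(Zt t) +
          ∑ i ∈ A', NN (A'.erase i) (Zt t) := by
        intro t ht
        have := ih D (Zt t) (by
          intro J hJ hJc
          have haJ : a ∉ J := fun h' => ha (hJ h')
          have h1 := h (insert a J) (insert_subset_insert _ hJ)
            (by rw [card_insert_of_notMem haJ, hJc])
          have hJJ : J ⊆ insert a J := subset_insert _ _
          have h2 : 2 * NN J (Zt t) ≤ NN (insert a J) X := by
            rw [NN_eq, NN_eq]
            have hsub : (Zt t).image (tr J) ⊆ (X.image (tr (insert a J))).image (tr J) := by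
              intro v hv
              obtain ⟨u, hu, rfl⟩ := mem_image.1 hv
              obtain ⟨x, hx, rfl⟩ := mem_image.1 (mem_filter.1 hu).1
              rw [tr_tr hJ]
              exact mem_image.2 ⟨_, mem_image_of_mem _ hx, tr_tr hJJ x⟩
            have h3 : 2 * #((Zt t).image (tr J)) ≤
                #((X.image (tr (insert a J))).filter
                  (fun y => tr J y ∈ (Zt t).image (tr J))) := by
              apply mul_card_image_le_card_of_maps_to (f := tr J)
              · intro y hy
                exact (mem_filter.1 hy).2
              · intro v hv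
                obtain ⟨u, hu, rfl⟩ := mem_image.1 hv
                have hfu : 1 < fib u := lt_of_le_of_lt ht (mem_filter.1 hu).2
                obtain ⟨y, hy, y', hy', hne⟩ := one_lt_card.1 hfu
                rw [mem_filter] at hy hy'
                have hya : y a ≠ y' a := fun h' =>
                  hne (hval y hy.1 y' hy'.1 (hy.2.trans hy'.2.symm) h')
                have hmem : ∀ z ∈ Y, tr A' z = u → tr (insert a J) z ∈
                    ((X.image (tr (insert a J))).filter
                    (fun y => tr J y ∈ (Zt t).image (tr J))).filter
                    (fun y => tr J y = tr J u) := by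
                  intro z hz hzu
                  have h4 : tr J (tr (insert a J) z) = tr J u := by
                    rw [tr_tr hJJ, ← hzu, tr_tr hJ]
                  rw [mem_filter, mem_filter]
                  refine ⟨⟨?_, ?_⟩, h4⟩
                  · obtain ⟨x, hx, rfl⟩ := mem_image.1 hz
                    rw [tr_tr (insert_subset_insert _ hJ)]
                    exact mem_image_of_mem _ hx
                  · rw [h4]
                    exact hv
                have h5 : 1 < #(((X.image (tr (insert a J))).filter
                    (fun y => tr J y ∈ (Zt t).image (tr J))).filter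
                    (fun y => tr J y = tr J u)) := by
                  rw [one_lt_card]
                  refine ⟨_, hmem y hy.1 hy.2, _, hmem y' hy'.1 hy'.2, fun h6 => hya ?_⟩
                  exact tr_eq_iff.1 h6 a (mem_insert_self _ _)
                exact h5
            exact h3.trans (card_le_card (filter_subset _ _))
          rw [pow_succ] at h1
          omega)
        rwa [hNZt] at this
      have hlev : ∀ t ∈ range q, #A' * #(Zt t) ≤ D * #(Zt t) + (if t = 0 then #Z else 0) +
          ∑ i ∈ A', NN (A'.erase i) (Zt t) := by
        intro t _
        by_cases ht : t = 0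
        · subst ht
          rw [if_pos rfl, hZ0]
          rw [hZ0, add_mul, one_mul] at ih0
          exact ih0
        · rw [if_neg ht, add_zero]
          exact iht t (Nat.pos_of_ne_zero ht)
      have hcol : ∀ i ∈ A', ∑ t ∈ range q, NN (A'.erase i) (Zt t) ≤ NN (A.erase i) X := by
        intro i hi
        have hia : i ≠ a := fun h' => ha (h' ▸ hi)
        have hAi : A.erase i = insert a (A'.erase i) := by
          rw [hA, erase_insert_of_ne (Ne.symm hia)]
        have hsub : A'.erase i ⊆ A.erase i := erase_subset_erase _ hA'A
        set V := Z.image (tr (A'.erase i)) with hV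
        set fi : (κ → Λ) → ℕ := fun v =>
          #((X.image (tr (A.erase i))).filter (fun y => tr (A'.erase i) y = v)) with hfi
        have h1 : NN (A.erase i) X = ∑ v ∈ V, fi v := by
          rw [NN_eq]
          apply card_eq_sum_card_fiberwise
          intro y hy
          obtain ⟨x, hx, rfl⟩ := mem_image.1 hy
          rw [tr_tr hsub]
          refine mem_image.2 ⟨tr A' x, mem_image_of_mem _ hx, ?_⟩
          exact tr_tr (erase_subset _ _) x
        have h2 : ∀ t, NN (A'.erase i) (Zt t) ≤ #(V.filter (fun v => t < fi v)) := by
          intro t
          rw [NN_eq]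
          apply card_le_card
          intro v hv
          obtain ⟨u, hu, rfl⟩ := mem_image.1 hv
          rw [mem_filter] at hu
          rw [mem_filter]
          refine ⟨mem_image_of_mem _ hu.1, lt_of_lt_of_le hu.2 ?_⟩
          apply card_le_card_of_injOn (tr (A.erase i))
          · intro y hy
            rw [mem_coe, mem_filter] at hy
            rw [mem_coe, mem_filter]
            constructor
            · obtain ⟨x, hx, rfl⟩ := mem_image.1 hy.1
              rw [tr_tr (erase_subset _ _)]
              exact mem_image_of_mem _ hx
            · rw [tr_tr hsub, ← hy.2, tr_tr (erase_subset _ _)]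
          · intro y hy y' hy' hyy
            rw [mem_coe, mem_filter] at hy hy'
            apply hval y hy.1 y' hy'.1 (hy.2.trans hy'.2.symm)
            exact tr_eq_iff.1 hyy a (mem_erase.2 ⟨Ne.symm hia, haA⟩)
        calc ∑ t ∈ range q, NN (A'.erase i) (Zt t)
            ≤ ∑ t ∈ range q, #(V.filter (fun v => t < fi v)) := sum_le_sum fun t _ => h2 t
          _ = ∑ v ∈ V, #((range q).filter (fun t => t < fi v)) := by
              simp only [card_filter]
              rw [sum_comm]
          _ ≤ ∑ v ∈ V, fi v := sum_le_sum fun v _ => hcount' _
          _ = NN (A.erase i) X := h1.symm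
      have htot := sum_le_sum hlev
      rw [sum_add_distrib, sum_add_distrib, ← mul_sum, ← mul_sum, hsum, sum_comm,
        sum_ite_eq' (range q) 0, if_pos (mem_range.2 hq0)] at htot
      have hcol' := sum_le_sum hcol
      have hAa : NN (A.erase a) X = #Z := by
        rw [NN_eq, hA, erase_insert ha]
      rw [hcA, hNY, hA, sum_insert ha, ← hA, hAa, add_mul, one_mul, add_mul, one_mul]
      omega

end Pool.Agent.H456.GW
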