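import Pool.Agent.H456.GW.Cone
import Pool.Agent.H456.GW.OneInc

/-!
# Contracting a vector on few long lines
-/

open Finset Module

open scoped Classical

namespace Pool.Agent.H456.GW

variable {F : Type} [Field F] [Fintype F]
variable {V V' V'' : Type} [AddCommGroup V] [Module F V] [AddCommGroup V'] [Module F V']
  [AddCommGroup V''] [Module F V'']

/-- All multiples of the members of `E`. -/
noncomputable def cone (F : Type) [Field F] [Fintype F] {V : Type} [AddCommGroup V] [Module F V]
    (E : Finset V) : Finset V := ((univ : Finset F) ×ˢ E).image fun p => p.1 • p.2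

theorem mem_cone {E : Finset V} {x : V} : x ∈ cone F E ↔ ∃ a : F, ∃ e ∈ E, a • e = x := by
  simp [cone]

theorem smul_mem_cone {E : Finset V} (a : F) {x : V} (hx : x ∈ cone F E) : a • x ∈ cone F E := by
  obtain ⟨b, e, he, rfl⟩ := mem_cone.1 hx
  exact mem_cone.2 ⟨a * b, e, he, mul_smul a b e⟩

theorem subset_cone (E : Finset V) : E ⊆ cone F E := fun e he =>
  mem_cone.2 ⟨1, e, he, one_smul _ _⟩

theorem cone_mono {E E' : Finset V} (h : E ⊆ E') : cone F E ⊆ cone F E' := by
  intro x hx
  obtain ⟨b, e, he, rfl⟩ := mem_cone.1 hx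
  exact mem_cone.2 ⟨b, e, h he, rfl⟩

theorem zero_mem_cone {E : Finset V} (h : E.Nonempty) : 0 ∈ cone F E := by
  obtain ⟨e, he⟩ := h
  exact mem_cone.2 ⟨0, e, he, zero_smul _ _⟩

theorem neg_mem_cone {E : Finset V} {x : V} (hx : x ∈ cone F E) : -x ∈ cone F E := by
  have := smul_mem_cone (-1 : F) hx
  rwa [neg_one_smul] at this

theorem image_cone (π : V →ₗ[F] V') (E : Finset V) :
    (cone F E).image π = cone F (E.image π) := by
  ext y
  rw [mem_image, mem_cone]
  constructor
  · rintro ⟨x, hx, rfl⟩
    obtain ⟨b, e, he, rfl⟩ := mem_cone.1 hx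
    exact ⟨b, π e, mem_image_of_mem _ he, by rw [map_smul]⟩
  · rintro ⟨b, z, hz, rfl⟩
    obtain ⟨e, he, rfl⟩ := mem_image.1 hz
    exact ⟨b • e, mem_cone.2 ⟨b, e, he, rfl⟩, by rw [map_smul]⟩

theorem cone_subset_span (E : Finset V) : ∀ x ∈ cone F E, x ∈ Submodule.span F (E : Set V) := by
  intro x hx
  obtain ⟨b, e, he, rfl⟩ := mem_cone.1 hx
  exact Submodule.smul_mem _ _ (Submodule.subset_span he)

theorem card_image_le_of {α β γ : Type*} (s : Finset α) (f : α → β) (g : α → γ)
    (h : ∀ x ∈ s, ∀ y ∈ s, g x = g y → f x = f y) : #(s.image f) ≤ #(s.image g) := by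
  have hrep : ∀ b : β, ∃ x : Option α, b ∈ s.image f → ∃ y ∈ s, x = some y ∧ f y = b := by
    intro b
    by_cases hb : b ∈ s.image f
    · obtain ⟨y, hy, hyb⟩ := mem_image.1 hb
      exact ⟨some y, fun _ => ⟨y, hy, rfl, hyb⟩⟩
    · exact ⟨none, fun h => absurd h hb⟩
  choose r hr using hrep
  have h1 : #(s.image f) ≤ #((s.image g).image some) := by
    apply card_le_card_of_injOn (fun b => (r b).map g)
    · intro b hb
      obtain ⟨y, hy, hry, _⟩ := hr b hb
      rw [mem_coe]
      refine mem_image.2 ⟨g y, mem_image_of_mem _ hy, ?_⟩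
      simp [hry]
    · intro b hb b' hb' hbb
      obtain ⟨y, hy, hry, hyb⟩ := hr b hb
      obtain ⟨y', hy', hry', hyb'⟩ := hr b' hb'
      simp only [hry, hry', Option.map_some, Option.some.injEq] at hbb
      rw [← hyb, ← hyb']
      exact h y hy y' hy' hbb
  exact h1.trans card_image_le

theorem card_image_eq_of_iff {α β γ : Type*} (s : Finset α) (f : α → β) (g : α → γ)
    (h : ∀ x ∈ s, ∀ y ∈ s, f x = f y ↔ g x = g y) : #(s.image f) = #(s.image g) :=
  le_antisymm (card_image_le_of s f g fun x hx y hy => (h x hx y hy).2)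
    (card_image_le_of s g f fun x hx y hy => (h x hx y hy).1)

/-- A minor-closed class of finite sets of vectors. -/
structure Cls (F : Type) [Field F] where
  /-- membership -/
  mem : ∀ (V : Type) [AddCommGroup V] [Module F V], Finset V → Prop
  /-- closure under deletion -/
  sub : ∀ (V : Type) [AddCommGroup V] [Module F V] (E E' : Finset V), mem V E → E' ⊆ E →
    mem V E'
  /-- closure under contraction -/
  con : ∀ (V V' : Type) [AddCommGroup V] [Module F V] [AddCommGroup V'] [Module F V']
    (π : V →ₗ[F] V') (E : Finset V) (E' : Finset V'), mem V E → KerOK π E →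
    (∀ y, y ∈ E' ↔ ∃ x ∈ E, π x = y) → mem V' E'

omit [Fintype F] in
theorem Cls.con' (P : Cls F) {E : Finset V} (h : P.mem V E) {π : V →ₗ[F] V'}
    (hπ : KerOK π E) : P.mem V' (E.image π) :=
  P.con V V' π E _ h hπ fun y => by simp

/-- A class in which rank `D + 1` members span few points. -/
def Thin (P : Cls F) (D : ℕ) : Prop :=
  ∀ (V : Type) [AddCommGroup V] [Module F V] (E : Finset V), P.mem V E → rnk F E ≤ D + 1 →
    #(cone F E) < 2 ^ (D + 1)

omit [Fintype F] in
/-- Linear functionals dual to a linearly independent finite set. -/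
theorem exists_dual (T : Finset V) (hT : LinearIndepOn F id (T : Set V)) :
    ∃ φ : V → (V →ₗ[F] F), ∀ t ∈ T, ∀ t' ∈ T, φ t t' = if t' = t then 1 else 0 := by
  let b := Basis.extend hT
  refine ⟨fun t => if h : t ∈ hT.extend (Set.subset_univ _) then b.coord ⟨t, h⟩ else 0, ?_⟩
  intro t ht t' ht'
  have h1 : t ∈ hT.extend (Set.subset_univ _) := hT.subset_extend _ ht
  have h2 : t' ∈ hT.extend (Set.subset_univ _) := hT.subset_extend _ ht'
  simp only [h1, dif_pos]
  have h3 : b ⟨t', h2⟩ = t' := Basis.extend_apply_self hT ⟨t', h2⟩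
  conv_lhs => rw [← h3]
  rw [Basis.coord_apply, Basis.repr_self, Finsupp.single_apply]
  simp

/-- **Some member of `E` lies on few long lines.** -/
theorem exists_low {P : Cls F} {D : ℕ} (hthin : Thin P D) {E : Finset V} (hE : P.mem V E)
    (hr : 0 < rnk F E) : ∃ x ∈ E, x ≠ 0 ∧ rnk F E * #(cone F E) ≤ D * #(cone F E) +
      rnk F E * #((cone F E).image (Submodule.mkQ (Submodule.span F {x}))) := by
  obtain ⟨T', hT'E, hTspan, hTli⟩ := exists_linearIndependent F (E : Set V)
  have hfin : T'.Finite := E.finite_toSet.subset hT'E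
  obtain ⟨T, rfl⟩ : ∃ T : Finset V, (T : Set V) = T' := ⟨hfin.toFinset, by simp⟩
  have hTE : T ⊆ E := by exact_mod_cast hT'E
  have hli : LinearIndepOn F id (T : Set V) := hTli
  obtain ⟨φ, hφ⟩ := exists_dual T hli
  have hTr : #T = rnk F E := by
    rw [rnk, ← hTspan]
    exact (finrank_span_finset_eq_card hli).symm
  -- the coordinates
  have hcoord : ∀ y ∈ Submodule.span F (E : Set V), y = ∑ t ∈ T, φ t y • t := by
    intro y hy
    rw [← hTspan] at hy
    induction hy using Submodule.span_induction with
    | mem x hx =>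
      rw [sum_eq_single x]
      · rw [hφ x hx x hx, if_pos rfl, one_smul]
      · intro t ht hne
        rw [hφ t ht x hx, if_neg (Ne.symm hne), zero_smul]
      · intro h
        exact absurd hx h
    | zero => simp
    | add x y _ _ hx hy =>
      conv_lhs => rw [hx, hy]
      rw [← sum_add_distrib]
      apply sum_congr rfl
      intro t _
      rw [map_add, add_smul]
    | smul a x _ hx =>
      conv_lhs => rw [hx]
      rw [smul_sum]
      apply sum_congr rfl
      intro t _
      rw [map_smul, smul_smul, smul_eq_mul]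
  let crd : V → V → F := fun y t => φ t y
  have hkey : ∀ J ⊆ T, ∀ y ∈ cone F E, ∀ y' ∈ cone F E,
      (tr J (crd y) = tr J (crd y') ↔
        Submodule.mkQ (Submodule.span F ((T \ J : Finset V) : Set V)) y =
        Submodule.mkQ (Submodule.span F ((T \ J : Finset V) : Set V)) y') := by
    intro J hJ y hy y' hy'
    rw [tr_eq_iff, Submodule.mkQ_apply, Submodule.mkQ_apply, Submodule.Quotient.eq]
    have hyy : y - y' ∈ Submodule.span F (E : Set V) :=
      Submodule.sub_mem _ (cone_subset_span E y hy) (cone_subset_span E y' hy')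
    constructor
    · intro h
      rw [hcoord _ hyy]
      apply Submodule.sum_mem
      intro t ht
      by_cases htJ : t ∈ J
      · have : φ t (y - y') = 0 := by
          rw [map_sub]
          exact sub_eq_zero.2 (h t htJ)
        rw [this, zero_smul]
        exact Submodule.zero_mem _
      · apply Submodule.smul_mem
        apply Submodule.subset_span
        rw [mem_coe, mem_sdiff]
        exact ⟨ht, htJ⟩
    · intro h t ht
      have h1 : ∀ z ∈ Submodule.span F ((T \ J : Finset V) : Set V), φ t z = 0 := by
        intro z hz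
        induction hz using Submodule.span_induction with
        | mem x hx =>
          rw [mem_coe, mem_sdiff] at hx
          rw [hφ t (hJ ht) x hx.1, if_neg (fun h' : x = t => hx.2 (h' ▸ ht))]
        | zero => simp
        | add x y _ _ hx hy => rw [map_add, hx, hy, add_zero]
        | smul a x _ hx => rw [map_smul, hx, smul_zero]
      have h2 := h1 _ h
      rw [map_sub] at h2
      exact sub_eq_zero.1 h2
  set X := (cone F E).image crd with hX
  have hNN : ∀ J ⊆ T, NN J X = #((cone F E).image
      (Submodule.mkQ (Submodule.span F ((T \ J : Finset V) : Set V)))) := by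
    intro J hJ
    rw [NN_eq, hX, image_image]
    apply card_image_eq_of_iff
    intro y hy y' hy'
    exact hkey J hJ y hy y' hy'
  have hone := one_inc T D X (by
    intro J hJ hJc
    rw [hNN J hJ, image_cone]
    apply hthin
    · exact P.con' hE (kerOK_mkQ (by
        intro t ht
        exact hTE (mem_sdiff.1 ht).1))
    · rw [rnk, span_image, ← hTspan, Submodule.map_span]
      have h1 : Submodule.span F ((Submodule.mkQ
          (Submodule.span F ((T \ J : Finset V) : Set V))) '' (T : Set V)) ≤
          Submodule.span F ((J.image (Submodule.mkQ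
          (Submodule.span F ((T \ J : Finset V) : Set V))) : Finset _) : Set _) := by
        rw [Submodule.span_le]
        rintro _ ⟨t, ht, rfl⟩
        by_cases htJ : t ∈ J
        · apply Submodule.subset_span
          rw [mem_coe]
          exact mem_image_of_mem _ htJ
        · have : Submodule.mkQ (Submodule.span F ((T \ J : Finset V) : Set V)) t = 0 := by
            rw [Submodule.mkQ_apply, Submodule.Quotient.mk_eq_zero]
            apply Submodule.subset_span
            rw [mem_coe, mem_sdiff]
            exact ⟨ht, htJ⟩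
          rw [this]
          exact Submodule.zero_mem _
      refine (Submodule.finrank_mono h1).trans ?_
      refine (finrank_span_finset_le_card _).trans ?_
      exact card_image_le.trans hJc.le)
  have hNT : NN T X = #(cone F E) := by
    rw [hNN T (Subset.refl _)]
    apply card_image_of_injective
    intro y y' hyy
    rw [Submodule.mkQ_apply, Submodule.mkQ_apply, Submodule.Quotient.eq, sdiff_self] at hyy
    simpa [sub_eq_zero] using hyy
  have hNt : ∀ t ∈ T, NN (T.erase t) X =
      #((cone F E).image (Submodule.mkQ (Submodule.span F {t}))) := by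
    intro t ht
    rw [hNN _ (erase_subset _ _)]
    have : T \ T.erase t = {t} := by
      rw [sdiff_erase ht, sdiff_self]
      rfl
    rw [this, coe_singleton]
  rw [hNT, sum_congr rfl hNt] at hone
  have hTne : T.Nonempty := card_pos.1 (hTr ▸ hr)
  obtain ⟨t, ht, htle⟩ : ∃ t ∈ T, #T * #(cone F E) ≤ D * #(cone F E) +
      #T * #((cone F E).image (Submodule.mkQ (Submodule.span F {t}))) := by
    by_contra hall
    push Not at hall
    have := sum_lt_sum_of_nonempty hTne hall
    rw [sum_add_distrib, sum_const, sum_const, smul_eq_mul, smul_eq_mul, ← mul_sum,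
      ← mul_add] at this
    have := lt_of_mul_lt_mul_left this (Nat.zero_le _)
    omega
  refine ⟨t, hTE ht, ?_, hTr ▸ htle⟩
  intro h0
  have := hφ t ht t ht
  rw [if_pos rfl, h0, map_zero] at this
  exact zero_ne_one this

end Pool.Agent.H456.GW
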