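import Pool.Agent.H456.GW.Double
import Pool.Agent.H456.GW.Greedy

/-!
# Linear growth of clique-free classes
-/

open Finset Module

open scoped Classical

namespace Pool.Agent.H456.GW

variable {F : Type} [Field F] [Fintype F]
variable {V V' V'' : Type} [AddCommGroup V] [Module F V] [AddCommGroup V'] [Module F V']
  [AddCommGroup V''] [Module F V'']

omit [Fintype F] in
theorem kerOK_singleton {E : Finset V} {x : V} (hx : x ∈ E) :
    KerOK (Submodule.mkQ (Submodule.span F {x})) E :=
  kerOK_mkQ (Set.singleton_subset_iff.2 hx)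

omit [Fintype F] in
theorem rnk_pos_of_mem {E : Finset V} {x : V} (hx : x ∈ E) (hx0 : x ≠ 0) : 0 < rnk F E := by
  have := rnk_contract (F := F) hx hx0
  omega

omit [Fintype F] in
theorem exists_ne_zero {E : Finset V} (h : 0 < rnk F E) : ∃ x ∈ E, x ≠ 0 := by
  by_contra hall
  push Not at hall
  have : Submodule.span F (E : Set V) = ⊥ := by
    rw [Submodule.span_eq_bot]
    exact hall
  rw [rnk, this, finrank_bot] at h
  exact lt_irrefl _ h

/-- The data of a contraction in which a vector lies on few long lines that support many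
additive triples. -/
def Pair (F : Type) [Field F] [Fintype F] {V : Type} [AddCommGroup V] [Module F V]
    (D c : ℕ) (E : Finset V) : Prop :=
  ∃ (V' : Type) (_ : AddCommGroup V') (_ : Module F V') (π : V →ₗ[F] V'), KerOK π E ∧
    ∃ x ∈ E.image π, x ≠ 0 ∧
      #(mul (Submodule.mkQ (Submodule.span F {x})) (cone F (E.image π))) ≤
        2 * D * Fintype.card F * c ∧
      c ^ 2 < 6 * Fintype.card F ^ 3 *
        adj (mul (Submodule.mkQ (Submodule.span F {x})) (cone F (E.image π)))
          ((cone F (E.image π)).image (Submodule.mkQ (Submodule.span F {x})))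

theorem exists_pair {P : Cls F} {D c : ℕ} (hthin : Thin P D)
    (hc : Fintype.card F ≤ c) {E : Finset V} (hE : P.mem V E)
    (hN : c * (rnk F E + 1) < #(cone F E))
    (hmin : ∀ (V' : Type) [AddCommGroup V'] [Module F V'] (π : V →ₗ[F] V'), KerOK π E →
      rnk F (E.image π) < rnk F E → #(cone F (E.image π)) ≤ c * (rnk F (E.image π) + 1)) :
    Pair F D c E := by
  by_contra hno
  set q := Fintype.card F with hq
  have hq1 : 1 < q := Fintype.one_lt_card
  -- contraction by a nonzero member of `E`
  have hcon1 : ∀ x ∈ E, x ≠ 0 →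
      #((cone F E).image (Submodule.mkQ (Submodule.span F {x}))) ≤ c * rnk F E := by
    intro x hx hx0
    rw [image_cone]
    have h1 := rnk_contract (F := F) hx hx0
    have := hmin _ (Submodule.mkQ (Submodule.span F {x})) (kerOK_singleton hx) (by omega)
    rwa [h1] at this
  have hbound : ∀ (V' : Type) [AddCommGroup V'] [Module F V'] (π : V →ₗ[F] V'), KerOK π E →
      0 < rnk F (E.image π) → #(cone F (E.image π)) ≤ q * c * (rnk F (E.image π) + 1) := by
    intro V' _ _ π hπ hr
    rcases (rnk_image_le π E).lt_or_eq with hlt | heq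
    · refine (hmin V' π hπ hlt).trans ?_
      rw [mul_assoc]
      exact Nat.le_mul_of_pos_left _ (by omega)
    · obtain ⟨x, hx, hx0⟩ := exists_ne_zero (heq ▸ hr)
      have h1 : #(cone F (E.image π)) ≤ #(cone F E) := by
        rw [← image_cone]
        exact card_image_le
      have h2 := card_le_mul_contract (F := F) (cone F E) x
      have h3 := Nat.mul_le_mul_left q (hcon1 x hx hx0)
      rw [heq]
      calc #(cone F (E.image π)) ≤ q * (c * rnk F E) := h1.trans (h2.trans h3)
        _ = q * c * rnk F E := by ring
        _ ≤ q * c * (rnk F E + 1) := Nat.mul_le_mul_left _ (Nat.le_succ _)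
  -- the triple count decreases slowly
  have hchain : ∀ (r : ℕ) (V' : Type) [AddCommGroup V'] [Module F V'] (π : V →ₗ[F] V'),
      KerOK π E → rnk F (E.image π) = r →
      2 * q * tri (cone F (E.image π)) ≤ c ^ 2 * r + 2 * q := by
    intro r
    induction r with
    | zero =>
      intro V' _ _ π hπ hr
      have h0 : ∀ y ∈ cone F (E.image π), y = 0 := by
        intro y hy
        by_contra hy0
        obtain ⟨a, e, he, rfl⟩ := mem_cone.1 hy
        have he0 : e ≠ 0 := by
          rintro rfl
          exact hy0 (smul_zero _)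
        have := rnk_pos_of_mem (F := F) he he0
        omega
      have h1 : tri (cone F (E.image π)) ≤ 1 := by
        unfold tri
        rw [card_le_one]
        intro p hp p' hp'
        rw [mem_filter, mem_product] at hp hp'
        exact Prod.ext ((h0 _ hp.1.1).trans (h0 _ hp'.1.1).symm)
          ((h0 _ hp.1.2).trans (h0 _ hp'.1.2).symm)
      rw [mul_zero, zero_add]
      exact (Nat.mul_le_mul_left _ h1).trans (mul_one _).le
    | succ r ih =>
      intro V' _ _ π hπ hr
      obtain ⟨x, hx, hx0, hlow⟩ := exists_low hthin (P.con' hE hπ) (by omega)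
      rw [hr] at hlow
      set C₁ := cone F (E.image π) with hC₁
      set ρ := Submodule.mkQ (Submodule.span F ({x} : Set V')) with hρ
      set m := #(mul ρ C₁) with hm
      have h1 : m + #(C₁.image ρ) ≤ #C₁ := card_mul_add ρ C₁
      have h2 : #C₁ ≤ q * c * (r + 1 + 1) := by
        have := hbound V' π hπ (by omega)
        rwa [hr] at this
      have h3 : (r + 1) * m ≤ D * #C₁ := by
        have := Nat.mul_le_mul_left (r + 1) h1
        rw [mul_add] at this
        omega
      have h4 : m ≤ 2 * D * q * c := by
        have h5 : (r + 1) * m ≤ (r + 1) * (2 * D * q * c) :=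
          calc (r + 1) * m ≤ D * #C₁ := h3
            _ ≤ D * (q * c * (r + 1 + 1)) := Nat.mul_le_mul_left _ h2
            _ ≤ D * (q * c * (2 * (r + 1))) :=
                Nat.mul_le_mul_left _ (Nat.mul_le_mul_left _ (by omega))
            _ = (r + 1) * (2 * D * q * c) := by ring
        exact Nat.le_of_mul_le_mul_left h5 (by omega)
      have h5 : 6 * q ^ 3 * adj (mul ρ C₁) (C₁.image ρ) ≤ c ^ 2 := by
        by_contra hlt
        push Not at hlt
        exact hno ⟨V', _, _, π, hπ, x, hx, hx0, h4, hlt⟩
      have h6 := tri_le ρ C₁ q (fun y hy => neg_mem_cone hy) (fun v => card_fiber_le C₁ x v)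
      have h7 := ih _ (ρ ∘ₗ π) (hπ.comp (kerOK_singleton hx)) (by
        have := rnk_contract (F := F) hx hx0
        rw [hr, ← hρ] at this
        rw [LinearMap.coe_comp, ← image_image]
        omega)
      rw [LinearMap.coe_comp, ← image_image, ← image_cone, ← hC₁] at h7
      calc 2 * q * tri C₁ ≤ 2 * q * (tri (C₁.image ρ) +
            3 * q ^ 2 * adj (mul ρ C₁) (C₁.image ρ)) := Nat.mul_le_mul_left _ h6
        _ = 2 * q * tri (C₁.image ρ) + 6 * q ^ 3 * adj (mul ρ C₁) (C₁.image ρ) := by ring
        _ ≤ (c ^ 2 * r + 2 * q) + c ^ 2 := Nat.add_le_add h7 h5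
        _ = c ^ 2 * (r + 1) + 2 * q := by ring
  -- the lower bound
  have hid : E.image (LinearMap.id : V →ₗ[F] V) = E := by
    ext y
    simp
  have h1 := hchain (rnk F E) V LinearMap.id (by
    unfold KerOK
    rw [LinearMap.ker_id]
    exact bot_le) (by rw [hid])
  rw [hid] at h1
  have h2 := sum_loss_le (F := F) (cone F E) (fun a x hx => smul_mem_cone a hx)
  have h3 : ∀ x ∈ (cone F E).erase 0, c + 1 ≤
      #(cone F E) - #((cone F E).image (Submodule.mkQ (Submodule.span F {x}))) := by
    intro x hx
    obtain ⟨hx0, hxC⟩ := mem_erase.1 hx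
    obtain ⟨a, e, he, rfl⟩ := mem_cone.1 hxC
    have ha : a ≠ 0 := by
      rintro rfl
      exact hx0 (zero_smul _ _)
    have he0 : e ≠ 0 := by
      rintro rfl
      exact hx0 (smul_zero _)
    have h4 : Submodule.span F ({a • e} : Set V) = Submodule.span F {e} :=
      Submodule.span_singleton_smul_eq (IsUnit.mk0 a ha) e
    have h5 := hcon1 e he he0
    rw [h4]
    have h6 : c * (rnk F E + 1) = c * rnk F E + c := by ring
    omega
  have h4 := sum_le_sum h3
  rw [sum_const, smul_eq_mul] at h4
  have h5 : c * (rnk F E + 1) ≤ #((cone F E).erase 0) := by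
    have := pred_card_le_card_erase (s := cone F E) (a := 0)
    omega
  have h6 : c * (rnk F E + 1) * (c + 1) ≤ q * tri (cone F E) :=
    (Nat.mul_le_mul_right _ h5).trans (h4.trans h2)
  nlinarith [Nat.zero_le (c ^ 2 * rnk F E)]

/-- The class contains no clique of order `s`. -/
def NoClique (P : Cls F) (s : ℕ) : Prop :=
  ∀ (V : Type) [AddCommGroup V] [Module F V] (E : Finset V) (z : Fin s → V), P.mem V E →
    LinearIndependent F z → ¬ ∀ i j, i ≠ j → z i - z j ∈ E

omit [Fintype F] in
theorem no_bipartite {P : Cls F} {s : ℕ} (hs : 0 < s) (hcl : NoClique P s) {E : Finset V}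
    (hE : P.mem V E) (l : F) (z w : Fin s → V) (hz : LinearIndependent F z)
    (hw : LinearIndependent F (fun j => (Submodule.span F (Set.range z)).mkQ (w j)))
    (h : ∀ i j, ∃ e ∈ E, z i + w j = l • e) : False := by
  have hcomb : ∀ a b : Fin s → F, ∑ i, a i • z i = ∑ i, b i • (z i + w i) → a = 0 := by
    intro a b hab
    have h1 : ∑ i, b i • w i ∈ Submodule.span F (Set.range z) := by
      have h2 : ∑ i, b i • w i = ∑ i, a i • z i - ∑ i, b i • z i := by
        rw [hab, ← sum_sub_distrib]
        apply sum_congr rfl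
        intro i _
        rw [smul_add, add_sub_cancel_left]
      rw [h2]
      apply Submodule.sub_mem
      · exact Submodule.sum_mem _ fun i _ => Submodule.smul_mem _ _
          (Submodule.subset_span ⟨i, rfl⟩)
      · exact Submodule.sum_mem _ fun i _ => Submodule.smul_mem _ _
          (Submodule.subset_span ⟨i, rfl⟩)
    have h3 : ∑ i, b i • (Submodule.span F (Set.range z)).mkQ (w i) = 0 := by
      have := (Submodule.Quotient.mk_eq_zero (Submodule.span F (Set.range z))).2 h1
      rw [← Submodule.mkQ_apply, map_sum] at this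
      simpa only [map_smul] using this
    have hb := Fintype.linearIndependent_iff.1 hw b h3
    have h4 : ∑ i, a i • z i = 0 := by
      rw [hab]
      exact sum_eq_zero fun i _ => by rw [hb i, zero_smul]
    funext i
    exact Fintype.linearIndependent_iff.1 hz a h4 i
  have hl : l ≠ 0 := by
    rintro rfl
    obtain ⟨e, _, he⟩ := h ⟨0, hs⟩ ⟨0, hs⟩
    rw [zero_smul] at he
    have := hcomb 0 (Pi.single ⟨0, hs⟩ 1) (by
      simp only [Pi.zero_apply, zero_smul, sum_const_zero]
      rw [sum_eq_single ⟨0, hs⟩]
      · rw [he, smul_zero]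
      · intro j _ hj
        rw [Pi.single_eq_of_ne hj, zero_smul]
      · intro h'
        exact absurd (mem_univ _) h')
    have h5 := hcomb (Pi.single ⟨0, hs⟩ 1) 0
    -- use the independence of the `w` directly
    have h6 : w ⟨0, hs⟩ = - z ⟨0, hs⟩ := by
      rw [eq_neg_iff_add_eq_zero, add_comm]
      exact he
    have h7 := hw.ne_zero ⟨0, hs⟩
    apply h7
    rw [Submodule.mkQ_apply, Submodule.Quotient.mk_eq_zero, h6]
    exact Submodule.neg_mem _ (Submodule.subset_span ⟨_, rfl⟩)
  set W := Submodule.span F (Set.range fun i => z i + w i) with hW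
  set η := W.mkQ with hη
  have hηz : ∀ i, η (z i) = - η (w i) := by
    intro i
    rw [eq_neg_iff_add_eq_zero, ← map_add, hη, Submodule.mkQ_apply,
      Submodule.Quotient.mk_eq_zero]
    exact Submodule.subset_span ⟨i, rfl⟩
  have hker : KerOK η E := by
    unfold KerOK
    rw [hη, Submodule.ker_mkQ]
    conv_lhs => rw [hW]
    rw [Submodule.span_le]
    rintro _ ⟨i, rfl⟩
    obtain ⟨e, he, hei⟩ := h i i
    change z i + w i ∈ _
    rw [hei]
    apply Submodule.smul_mem
    apply Submodule.subset_span
    refine ⟨he, ?_⟩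
    have : e = l⁻¹ • (z i + w i) := by
      rw [hei, smul_smul, inv_mul_cancel₀ hl, one_smul]
    rw [Submodule.mkQ_apply, Submodule.Quotient.mk_eq_zero, this]
    exact Submodule.smul_mem _ _ (Submodule.subset_span ⟨i, rfl⟩)
  apply hcl _ (E.image η) (fun i => l⁻¹ • η (z i)) (P.con' hE hker)
  · rw [Fintype.linearIndependent_iff]
    intro a ha
    have h1 : ∑ i, (a i * l⁻¹) • z i ∈ W := by
      rw [← Submodule.Quotient.mk_eq_zero, ← Submodule.mkQ_apply, map_sum]
      simpa only [map_smul, smul_smul] using ha
    rw [hW, Submodule.mem_span_range_iff_exists_fun] at h1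
    obtain ⟨b, hb⟩ := h1
    have h2 := hcomb _ b hb.symm
    intro i
    have h3 := congrFun h2 i
    simp only [Pi.zero_apply] at h3
    exact (mul_eq_zero.1 h3).resolve_right (inv_ne_zero hl)
  · intro i j _
    obtain ⟨e, he, hei⟩ := h i j
    rw [← smul_sub, hηz j, sub_neg_eq_add, ← map_add, hei, map_smul, smul_smul,
      inv_mul_cancel₀ hl, one_smul]
    exact mem_image_of_mem _ he

/-- Dense members have minors of small rank with many points. -/
theorem exists_minor {P : Cls F} {D s : ℕ} (hD : 0 < D) (hs : 0 < s) (hthin : Thin P D)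
    (hcl : NoClique P s) (m : ℕ) :
    ∃ κ : ℕ, ∀ (V : Type) [AddCommGroup V] [Module F V] (E : Finset V), P.mem V E →
      κ * (rnk F E + 1) < #(cone F E) → Mn F m (2 ^ m) E := by
  set q := Fintype.card F with hq
  have hq1 : 1 < q := Fintype.one_lt_card
  induction m with
  | zero =>
    refine ⟨0, fun V _ _ E hE hc => ?_⟩
    rw [zero_mul] at hc
    obtain ⟨y, hy⟩ := card_pos.1 hc
    obtain ⟨a, e, he, _⟩ := mem_cone.1 hy
    refine ⟨_, _, _, Submodule.mkQ (Submodule.span F (E : Set V)), E, Subset.refl _,
      kerOK_mkQ (Set.Subset.refl _), ?_, ?_⟩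
    · unfold rnk
      rw [span_image]
      rw [Submodule.mkQ_map_self, finrank_bot]
    · rw [pow_zero]
      exact card_pos.2 ⟨_, zero_mem_cone ⟨_, mem_image_of_mem _ he⟩⟩
  | succ m ih =>
    obtain ⟨κ, hκ⟩ := ih
    set β := 96 * D ^ 2 * q ^ 6 with hβ
    set θ := β ^ s * (κ * (2 * s + 1)) + 2 * (κ * (s + 1)) + 1 with hθ
    set c := 24 * D * q ^ 5 * θ with hc
    have hθ0 : 0 < θ := by omega
    have hcq : q ≤ c := by
      have h1 : q ≤ q ^ 5 := Nat.le_self_pow (by norm_num) q
      have h2 : 1 ≤ 24 * D * θ := Nat.mul_pos (by omega) hθ0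
      calc q ≤ q ^ 5 := h1
        _ ≤ q ^ 5 * (24 * D * θ) := Nat.le_mul_of_pos_right _ (by omega)
        _ = c := by rw [hc]; ring
    refine ⟨c, ?_⟩
    -- strong induction on the rank
    have hmain : ∀ (r : ℕ) (V : Type) [AddCommGroup V] [Module F V] (E : Finset V),
        P.mem V E → rnk F E = r → c * (rnk F E + 1) < #(cone F E) →
        Mn F (m + 1) (2 ^ (m + 1)) E := by
      intro r
      induction r using Nat.strong_induction_on with
      | _ r ihr =>
      intro V _ _ E hE hrE hN
      by_cases hmin : ∀ (V' : Type) [AddCommGroup V'] [Module F V'] (π : V →ₗ[F] V'),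
          KerOK π E → rnk F (E.image π) < rnk F E →
          #(cone F (E.image π)) ≤ c * (rnk F (E.image π) + 1)
      · obtain ⟨V₁, _, _, π, hπ, x, hx, hx0, hsmall, hadj⟩ := exists_pair hthin hcq hE hN hmin
        refine Mn.of_contract hπ ?_
        set E₁ := E.image π with hE₁
        set ρ := Submodule.mkQ (Submodule.span F ({x} : Set V₁)) with hρ
        set M := mul ρ (cone F E₁) with hM
        have hρx : ρ x = 0 := by
          rw [hρ, Submodule.mkQ_apply, Submodule.Quotient.mk_eq_zero]
          exact Submodule.mem_span_singleton_self x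
        have hE₂ : P.mem _ (E₁.image ρ) := P.con' (P.con' hE hπ) (kerOK_singleton hx)
        have h0M : (0 : V₁ ⧸ Submodule.span F ({x} : Set V₁)) ∈ M := by
          rw [hM, mul, mem_filter]
          refine ⟨mem_image.2 ⟨x, subset_cone _ hx, hρx⟩, ?_⟩
          have : 1 < #((cone F E₁).filter fun y => ρ y = 0) := one_lt_card.2
            ⟨0, mem_filter.2 ⟨zero_mem_cone ⟨x, hx⟩, map_zero _⟩, x,
              mem_filter.2 ⟨subset_cone _ hx, hρx⟩, Ne.symm hx0⟩
          exact this
        have hMsmul : ∀ (a : F), a ≠ 0 → ∀ v ∈ M, a • v ∈ M := by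
          intro a ha v hv
          rw [hM, mul, mem_filter] at hv ⊢
          obtain ⟨y, hy, hyv⟩ := mem_image.1 hv.1
          refine ⟨mem_image.2 ⟨a • y, smul_mem_cone _ hy, by rw [map_smul, hyv]⟩,
            hv.2.trans ?_⟩
          apply card_le_card_of_injOn (fun z => a • z)
          · intro z hz
            rw [mem_coe, mem_filter] at hz ⊢
            exact ⟨smul_mem_cone _ hz.1, by rw [map_smul, hz.2]⟩
          · intro z _ z' _ h
            have := congrArg (fun z => a⁻¹ • z) h
            simpa [smul_smul, inv_mul_cancel₀ ha] using this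
        by_cases hW : ∀ W : Submodule F (V₁ ⧸ Submodule.span F ({x} : Set V₁)),
            FiniteDimensional F W → #(M.filter (· ∈ W)) ≤ κ * (finrank F W + 1)
        · -- a complete bipartite pattern, hence a clique
          exfalso
          have hpig : ∃ l : F, adj M ((cone F E₁).image ρ) ≤
              q * #((M ×ˢ M).filter fun p => ∃ e ∈ E₁.image ρ, p.1 + p.2 = l • e) := by
            by_contra hall
            push Not at hall
            have h1 : adj M ((cone F E₁).image ρ) ≤ ∑ l : F,
                #((M ×ˢ M).filter fun p => ∃ e ∈ E₁.image ρ, p.1 + p.2 = l • e) := by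
              refine le_trans (card_le_card ?_) card_biUnion_le
              intro p hp
              rw [mem_filter, image_cone] at hp
              obtain ⟨l, e, he, hle⟩ := mem_cone.1 hp.2
              rw [mem_biUnion]
              exact ⟨l, mem_univ _, mem_filter.2 ⟨hp.1, e, he, hle.symm⟩⟩
            have h2 : ∑ l : F, q *
                #((M ×ˢ M).filter fun p => ∃ e ∈ E₁.image ρ, p.1 + p.2 = l • e) <
                ∑ _l : F, adj M ((cone F E₁).image ρ) :=
              sum_lt_sum_of_nonempty ⟨0, mem_univ _⟩ fun l _ => hall l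
            rw [← mul_sum, sum_const, card_univ, ← hq, smul_eq_mul] at h2
            have := lt_of_mul_lt_mul_left h2 (Nat.zero_le _)
            omega
          obtain ⟨l, hl⟩ := hpig
          set g := #((M ×ˢ M).filter fun p => ∃ e ∈ E₁.image ρ, p.1 + p.2 = l • e) with hg
          have hg1 : c ^ 2 < 6 * q ^ 4 * g := by
            calc c ^ 2 < 6 * q ^ 3 * adj M ((cone F E₁).image ρ) := hadj
              _ ≤ 6 * q ^ 3 * (q * g) := Nat.mul_le_mul_left _ hl
              _ = 6 * q ^ 4 * g := by ring
          have hg2 : 2 * θ * #M ≤ g := by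
            have h1 : 6 * q ^ 4 * (2 * θ * #M) ≤ c ^ 2 := by
              calc 6 * q ^ 4 * (2 * θ * #M) ≤ 6 * q ^ 4 * (2 * θ * (2 * D * q * c)) :=
                    Nat.mul_le_mul_left _ (Nat.mul_le_mul_left _ hsmall)
                _ = (24 * D * q ^ 5 * θ) * c := by ring
                _ = c ^ 2 := by rw [← hc]; ring
            exact (Nat.lt_of_mul_lt_mul_left (lt_of_le_of_lt h1 hg1)).le
          have hβM : 2 * #M ≤ β * θ := by
            calc 2 * #M ≤ 2 * (2 * D * q * c) := Nat.mul_le_mul_left _ hsmall
              _ = β * θ := by rw [hc, hβ]; ring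
          obtain ⟨z, w, hz, hw, hzw⟩ := exists_bipartite (G := fun v w =>
            ∃ e ∈ E₁.image ρ, v + w = l • e) (s := s) hW ⟨0, h0M⟩ (by convert hg2) hβM (by omega) (by omega)
          exact no_bipartite hs hcl hE₂ l z w hz hw hzw
        · -- a dense subset of doubled points
          push Not at hW
          obtain ⟨W, hWfin, hWbig⟩ := hW
          set EY := (E₁.image ρ).filter fun y => y ∈ M ∧ y ∈ W with hEY
          have h0EY : (0 : V₁ ⧸ Submodule.span F ({x} : Set V₁)) ∈ EY :=
            mem_filter.2 ⟨mem_image.2 ⟨x, hx, hρx⟩, h0M, W.zero_mem⟩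
          have hsub : M.filter (· ∈ W) ⊆ cone F EY := by
            intro v hv
            rw [mem_filter] at hv
            by_cases hv0 : v = 0
            · rw [hv0]
              exact zero_mem_cone ⟨_, h0EY⟩
            · have h1 : v ∈ (cone F E₁).image ρ := (mem_filter.1 hv.1).1
              rw [image_cone] at h1
              obtain ⟨a, e, he, rfl⟩ := mem_cone.1 h1
              have ha : a ≠ 0 := by
                rintro rfl
                exact hv0 (zero_smul _ _)
              apply smul_mem_cone
              apply subset_cone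
              have h2 : e = a⁻¹ • a • e := by
                rw [smul_smul, inv_mul_cancel₀ ha, one_smul]
              refine mem_filter.2 ⟨he, ?_, ?_⟩
              · rw [h2]
                exact hMsmul _ (inv_ne_zero ha) _ hv.1
              · rw [h2]
                exact W.smul_mem _ hv.2
          have hrk : rnk F EY ≤ finrank F W := by
            unfold rnk
            apply Submodule.finrank_mono
            rw [Submodule.span_le]
            intro y hy
            exact (mem_filter.1 (mem_coe.1 hy)).2.2
          have hdense : κ * (rnk F EY + 1) < #(cone F EY) :=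
            calc κ * (rnk F EY + 1) ≤ κ * (finrank F W + 1) :=
                  Nat.mul_le_mul_left _ (by omega)
              _ < #(M.filter (· ∈ W)) := hWbig
              _ ≤ #(cone F EY) := card_le_card hsub
          have hMn := hκ _ EY (P.sub _ _ _ hE₂ (filter_subset _ _)) hdense
          have := doubling hx hx0 (filter_subset _ _) (fun y hy => (mem_filter.1 hy).2.1)
            (Nat.pow_pos (by norm_num)) hMn
          rwa [pow_succ, mul_comm]
      · push Not at hmin
        obtain ⟨V', _, _, π, hπ, hlt, hbig⟩ := hmin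
        exact Mn.of_contract hπ (ihr _ (hrE ▸ hlt) V' (E.image π) (P.con' hE hπ) rfl hbig)
    intro V _ _ E hE hN
    exact hmain _ V E hE rfl hN

/-- **Linear growth.** A minor-closed class without large cliques, whose members of some small
rank have few points, has linearly many points in terms of the rank. -/
theorem linear_growth {P : Cls F} {D s : ℕ} (hD : 0 < D) (hs : 0 < s) (hthin : Thin P D)
    (hcl : NoClique P s) :
    ∃ κ : ℕ, ∀ (V : Type) [AddCommGroup V] [Module F V] (E : Finset V), P.mem V E →
      #(cone F E) ≤ κ * (rnk F E + 1) := by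
  obtain ⟨κ, hκ⟩ := exists_minor hD hs hthin hcl (D + 1)
  refine ⟨κ, fun V _ _ E hE => ?_⟩
  by_contra hlt
  push Not at hlt
  obtain ⟨V', _, _, π, E₀, hE₀, hker, hr, hc⟩ := hκ V E hE hlt
  have := hthin V' (E₀.image π) (P.con' (P.sub _ _ _ hE hE₀) hker) hr
  omega

end Pool.Agent.H456.GW
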